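import Mathlib

/-!
# A rank inequality for sumsets

Let `X, K` be finite sets of integers and `Φ` a map on `X + K` with values in a rational vector space
which is additive: `Φ (x + k) = f x + e k`. Suppose that `Φ` vanishes on the elements of `X + K` below
a threshold `θ`, let `c` be the rank of `Φ` and `M` the number of elements of `X + K` that are at least
`θ`. Then `(M - 1) (H + G) ≥ (c - 1) (H G + H + G)` where `H = |X| - 1` and `G = |K| - 1`.
-/

set_option autoImplicit false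
set_option linter.unusedSectionVars false

namespace Pool.Agent.Q153.CHG

open Finset Pointwise

section rank

variable {V : Type*} [AddCommGroup V] [Module ℚ V]

/-- the rank of `Φ` on `S` -/
noncomputable def rk (Φ : ℤ → V) (S : Finset ℤ) : ℕ :=
  Module.finrank ℚ (Submodule.span ℚ (Φ '' (S : Set ℤ)))

instance (Φ : ℤ → V) (S : Finset ℤ) :
    FiniteDimensional ℚ (Submodule.span ℚ (Φ '' (S : Set ℤ))) :=
  FiniteDimensional.span_of_finite ℚ (S.finite_toSet.image Φ)

lemma rk_le_of_le {Φ : ℤ → V} {S T : Finset ℤ}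
    (h : Submodule.span ℚ (Φ '' (S : Set ℤ)) ≤ Submodule.span ℚ (Φ '' (T : Set ℤ))) :
    rk Φ S ≤ rk Φ T :=
  Submodule.finrank_mono h

lemma rk_mono (Φ : ℤ → V) {S T : Finset ℤ} (h : S ⊆ T) : rk Φ S ≤ rk Φ T :=
  rk_le_of_le (Submodule.span_mono (Set.image_mono (by exact_mod_cast h)))

lemma rk_le_card (Φ : ℤ → V) (S : Finset ℤ) : rk Φ S ≤ S.card := by
  classical
  unfold rk
  have h : (Φ '' (S : Set ℤ)) = ((S.image Φ : Finset V) : Set V) := by push_cast; rfl
  rw [h]
  exact (finrank_span_finset_le_card _).trans Finset.card_image_le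

/-- the rank is at most the number of the elements above the threshold -/
lemma rk_le_filter (Φ : ℤ → V) (S : Finset ℤ) (θ : ℤ) (h0 : ∀ y ∈ S, y < θ → Φ y = 0) :
    rk Φ S ≤ (S.filter (θ ≤ ·)).card := by
  refine le_trans (rk_le_of_le ?_) (rk_le_card Φ _)
  rw [Submodule.span_le]
  rintro _ ⟨y, hy, rfl⟩
  by_cases h : y < θ
  · rw [h0 y hy h]; exact Submodule.zero_mem _
  · exact Submodule.subset_span ⟨y, by simpa using ⟨hy, not_lt.1 h⟩, rfl⟩

/-- additive data on `X + K` -/
structure Dat (X K : Finset ℤ) (f e Φ : ℤ → V) (θ : ℤ) : Prop where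
  add : ∀ x ∈ X, ∀ k ∈ K, Φ (x + k) = f x + e k
  zero : ∀ x ∈ X, ∀ k ∈ K, x + k < θ → Φ (x + k) = 0

namespace Dat

variable {X K X' K' : Finset ℤ} {f e Φ : ℤ → V} {θ : ℤ}

lemma mono (D : Dat X K f e Φ θ) (hX : X' ⊆ X) (hK : K' ⊆ K) : Dat X' K' f e Φ θ :=
  ⟨fun x hx k hk => D.add x (hX hx) k (hK hk), fun x hx k hk => D.zero x (hX hx) k (hK hk)⟩

lemma symm (D : Dat X K f e Φ θ) : Dat K X e f Φ θ :=
  ⟨fun k hk x hx => by rw [add_comm k x, D.add x hx k hk, add_comm],
   fun k hk x hx h => by rw [add_comm k x] at h ⊢; exact D.zero x hx k hk h⟩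

lemma zero' (D : Dat X K f e Φ θ) : ∀ y ∈ X + K, y < θ → Φ y = 0 := by
  intro y hy h
  obtain ⟨x, hx, k, hk, rfl⟩ := Finset.mem_add.1 hy
  exact D.zero x hx k hk h

/-- if removing `x₀` lowers the rank -/
lemma drop (D : Dat X K f e Φ θ) {x₀ : ℤ} (hx₀ : x₀ ∈ X) (hX : (X.erase x₀).Nonempty)
    (hlt : rk Φ (X.erase x₀ + K) < rk Φ (X + K)) :
    ∀ k ∈ K, Φ (x₀ + k) ∉ Submodule.span ℚ (Φ '' ((X.erase x₀ + K : Finset ℤ) : Set ℤ)) := by
  intro k hk hmem
  obtain ⟨x₁, hx₁⟩ := hX
  have hx₁' := Finset.mem_of_mem_erase hx₁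
  apply absurd hlt
  rw [not_lt]
  apply rk_le_of_le
  rw [Submodule.span_le]
  rintro _ ⟨y, hy, rfl⟩
  obtain ⟨x, hx, k', hk', rfl⟩ := Finset.mem_add.1 (Finset.mem_coe.1 hy)
  by_cases hxx : x = x₀
  · subst hxx
    have e1 : Φ (x + k') = Φ (x + k) + (Φ (x₁ + k') - Φ (x₁ + k)) := by
      rw [D.add x hx k' hk', D.add x hx k hk, D.add x₁ hx₁' k' hk', D.add x₁ hx₁' k hk]
      abel
    rw [e1]
    refine Submodule.add_mem _ hmem (Submodule.sub_mem _ ?_ ?_)
    · exact Submodule.subset_span ⟨_, Finset.mem_coe.2 (Finset.add_mem_add hx₁ hk'), rfl⟩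
    · exact Submodule.subset_span ⟨_, Finset.mem_coe.2 (Finset.add_mem_add hx₁ hk), rfl⟩
  · exact Submodule.subset_span
      ⟨_, Finset.mem_coe.2 (Finset.add_mem_add (Finset.mem_erase.2 ⟨hxx, hx⟩) hk'), rfl⟩

/-- removing one point lowers the rank by at most one -/
lemma rk_erase (D : Dat X K f e Φ θ) {x₀ : ℤ} (hx₀ : x₀ ∈ X) (hX : (X.erase x₀).Nonempty)
    (hK : K.Nonempty) :
    rk Φ (X + K) ≤ rk Φ (X.erase x₀ + K) + 1 := by
  obtain ⟨x₁, hx₁⟩ := hX
  have hx₁' := Finset.mem_of_mem_erase hx₁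
  obtain ⟨k, hk⟩ := hK
  have hle : Submodule.span ℚ (Φ '' ((X + K : Finset ℤ) : Set ℤ)) ≤
      Submodule.span ℚ (Φ '' ((X.erase x₀ + K : Finset ℤ) : Set ℤ)) ⊔
        Submodule.span ℚ {Φ (x₀ + k)} := by
    rw [Submodule.span_le]
    rintro _ ⟨y, hy, rfl⟩
    obtain ⟨x, hx, k', hk', rfl⟩ := Finset.mem_add.1 (Finset.mem_coe.1 hy)
    by_cases hxx : x = x₀
    · subst hxx
      have e1 : Φ (x + k') = (Φ (x₁ + k') - Φ (x₁ + k)) + Φ (x + k) := by
        rw [D.add x hx k' hk', D.add x hx k hk, D.add x₁ hx₁' k' hk', D.add x₁ hx₁' k hk]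
        abel
      rw [e1]
      refine Submodule.add_mem _ (Submodule.mem_sup_left (Submodule.sub_mem _ ?_ ?_))
        (Submodule.mem_sup_right (Submodule.subset_span rfl))
      · exact Submodule.subset_span ⟨_, Finset.mem_coe.2 (Finset.add_mem_add hx₁ hk'), rfl⟩
      · exact Submodule.subset_span ⟨_, Finset.mem_coe.2 (Finset.add_mem_add hx₁ hk), rfl⟩
    · exact Submodule.mem_sup_left (Submodule.subset_span
        ⟨_, Finset.mem_coe.2 (Finset.add_mem_add (Finset.mem_erase.2 ⟨hxx, hx⟩) hk'), rfl⟩)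
  calc rk Φ (X + K) ≤ Module.finrank ℚ ↥(Submodule.span ℚ (Φ '' ((X.erase x₀ + K : Finset ℤ) : Set ℤ)) ⊔
        Submodule.span ℚ {Φ (x₀ + k)}) := Submodule.finrank_mono hle
    _ ≤ rk Φ (X.erase x₀ + K) + Module.finrank ℚ ↥(Submodule.span ℚ {Φ (x₀ + k)}) :=
        Submodule.finrank_add_le_finrank_add_finrank _ _
    _ ≤ rk Φ (X.erase x₀ + K) + 1 := by
        gcongr
        have := finrank_span_finset_le_card (R := ℚ) ({Φ (x₀ + k)} : Finset V)
        rw [Finset.coe_singleton, Finset.card_singleton] at this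
        exact this

/-- the rank is at most `|X| + |K| - r`, where `r ≥ 1` is the number of the coincidences between a
translate of `X` and a translate of `K` on which `Φ` is consistent -/
lemma rk_le_sub (D : Dat X K f e Φ θ) {x₀ k₀ : ℤ} (P : Finset ℤ) (hPX : P ⊆ X)
    (hPK : ∀ x ∈ P, x + k₀ - x₀ ∈ K) (hP : ∀ x ∈ P, f x + e k₀ = f x₀ + e (x + k₀ - x₀))
    (hne : P.Nonempty) :
    rk Φ (X + K) + P.card ≤ X.card + K.card := by
  classical
  obtain ⟨p, hp⟩ := hne
  set q := p + k₀ - x₀ with hq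
  have hqK : q ∈ K := hPK p hp
  have hpX := hPX hp
  set P' := P.image (fun x => x + k₀ - x₀) with hP'
  have hP'K : P' ⊆ K := by
    intro y hy
    obtain ⟨x, hx, rfl⟩ := Finset.mem_image.1 hy
    exact hPK x hx
  have hcardP : P'.card = P.card := Finset.card_image_of_injective _
    (fun a b (h : a + k₀ - x₀ = b + k₀ - x₀) => by omega)
  set T : Finset V := X.image (fun x => Φ (x + q)) ∪ (K \ P').image (fun k => Φ (p + k)) with hT
  have hsub : Submodule.span ℚ (Φ '' ((X + K : Finset ℤ) : Set ℤ)) ≤ Submodule.span ℚ (T : Set V) := by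
    have h1 : ∀ x ∈ X, Φ (x + q) ∈ Submodule.span ℚ (T : Set V) := fun x hx =>
      Submodule.subset_span (by
        rw [hT]; push_cast; exact Or.inl ⟨x, hx, rfl⟩)
    have h2 : ∀ k ∈ K, Φ (p + k) ∈ Submodule.span ℚ (T : Set V) := by
      intro k hk
      by_cases hkP : k ∈ P'
      · obtain ⟨x, hx, rfl⟩ := Finset.mem_image.1 hkP
        have e1 : Φ (p + (x + k₀ - x₀)) = Φ (x + q) := by
          rw [D.add p hpX _ hk, D.add x (hPX hx) q hqK]
          have h3 := hP x hx
          have h4 := hP p hp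
          rw [← hq] at h4
          have h5 : e (x + k₀ - x₀) = f x + e k₀ - f x₀ := by rw [h3]; abel
          have h6 : e q = f p + e k₀ - f x₀ := by rw [h4]; abel
          rw [h5, h6]; abel
        rw [e1]
        exact h1 x (hPX hx)
      · exact Submodule.subset_span (by
          rw [hT]; push_cast
          exact Or.inr ⟨k, ⟨hk, by simpa [hP'] using hkP⟩, rfl⟩)
    rw [Submodule.span_le]
    rintro _ ⟨y, hy, rfl⟩
    obtain ⟨x, hx, k, hk, rfl⟩ := Finset.mem_add.1 (Finset.mem_coe.1 hy)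
    have e1 : Φ (x + k) = Φ (x + q) + Φ (p + k) - Φ (p + q) := by
      rw [D.add x hx k hk, D.add x hx q hqK, D.add p hpX k hk, D.add p hpX q hqK]
      abel
    rw [e1]
    exact Submodule.sub_mem _ (Submodule.add_mem _ (h1 x hx) (h2 k hk)) (h2 q hqK)
  have : FiniteDimensional ℚ (Submodule.span ℚ (T : Set V)) :=
    FiniteDimensional.span_of_finite ℚ T.finite_toSet
  have h3 : rk Φ (X + K) ≤ T.card := (Submodule.finrank_mono hsub).trans
    (finrank_span_finset_le_card _)
  have h4 : T.card ≤ X.card + (K.card - P.card) := by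
    refine (Finset.card_union_le _ _).trans (Nat.add_le_add Finset.card_image_le
      (Finset.card_image_le.trans ?_))
    rw [Finset.card_sdiff_of_subset hP'K, hcardP]
  have h5 : P.card ≤ K.card := hcardP ▸ Finset.card_le_card hP'K
  omega

/-- the rank is at most `|X| + |K| - 1` -/
lemma rk_le_pred (D : Dat X K f e Φ θ) (hX : X.Nonempty) (hK : K.Nonempty) :
    rk Φ (X + K) + 1 ≤ X.card + K.card := by
  obtain ⟨x, hx⟩ := hX
  obtain ⟨k, hk⟩ := hK
  have := D.rk_le_sub (x₀ := x) (k₀ := k) {x} (by simpa using hx) (by simpa using hk)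
    (by simp) (by simp)
  simpa using this

end Dat

/-- the number of the elements of `S` above the threshold -/
def up (θ : ℤ) (S : Finset ℤ) : ℕ := (S.filter (θ ≤ ·)).card

lemma up_add_le (θ : ℤ) {S S' E : Finset ℤ} (hS : S' ⊆ S) (hE : E ⊆ S) (hE' : ∀ y ∈ E, θ ≤ y)
    (hd : ∀ y ∈ E, y ∉ S') : up θ S' + E.card ≤ up θ S := by
  classical
  unfold up
  rw [← Finset.card_union_of_disjoint]
  · apply Finset.card_le_card
    intro y hy
    rcases Finset.mem_union.1 hy with h | h
    · rw [Finset.mem_filter] at h ⊢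
      exact ⟨hS h.1, h.2⟩
    · exact Finset.mem_filter.2 ⟨hE h, hE' y h⟩
  · rw [Finset.disjoint_left]
    intro y hy hy'
    exact hd y hy' (Finset.mem_filter.1 hy).1

/-- the algebra of the first step -/
lemma alg1 (H G c M M₁ : ℤ) (hH : 1 ≤ H) (hG : 0 ≤ G) (hM : M₁ + (G + 1) ≤ M)
    (hc : c ≤ H + G + 1) (h2 : 2 ≤ c) (hcM : c ≤ M)
    (ih : (c - 2) * ((H - 1) * G + (H - 1) + G) ≤ (M₁ - 1) * ((H - 1) + G)) :
    (c - 1) * (H * G + H + G) ≤ (M - 1) * (H + G) := by
  by_cases hN : H + G = 1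
  · have : H = 1 := by omega
    have : G = 0 := by omega
 
    subst H G
    omega
  have hN' : 0 < H + G - 1 := by omega
  have key : (c - 1) * (H * G + H + G) * (H + G - 1) ≤ (M - 1) * (H + G) * (H + G - 1) := by
    have e1 : (M₁ - 1 + (G + 1)) * ((H + G) * (H + G - 1)) ≤ (M - 1) * ((H + G) * (H + G - 1)) := by
      apply mul_le_mul_of_nonneg_right (by omega)
      exact mul_nonneg (by omega) (by omega)
    have e2 := mul_le_mul_of_nonneg_right ih (show (0 : ℤ) ≤ H + G by omega)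
    have e3 : 0 ≤ (H + G - 1 - (c - 2)) * G ^ 2 := mul_nonneg (by omega) (sq_nonneg _)
    nlinarith [e1, e2, e3]
  exact le_of_mul_le_mul_right key hN'

/-- the algebra of the case in which the rank does not drop -/
lemma alg2 (H G c M M₁ : ℤ) (hH : 1 ≤ H) (hG : 1 ≤ G) (hM : M₁ + c ≤ M)
    (h1 : 1 ≤ c) (hcM : c ≤ M) (hc2 : H + G = 2 → c ≤ 1)
    (ih : (c - 1) * ((H - 1) * (G - 1) + (H - 1) + (G - 1)) ≤ (M₁ - 1) * ((H - 1) + (G - 1))) :
    (c - 1) * (H * G + H + G) ≤ (M - 1) * (H + G) := by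
  by_cases hN : H + G = 2
  · have : c = 1 := by have := hc2 hN; omega
    subst this
    have : 0 ≤ (M - 1) * (H + G) := mul_nonneg (by omega) (by omega)
    linarith
  have hN' : 0 < H + G - 2 := by omega
  have key : (c - 1) * (H * G + H + G) * (H + G - 2) ≤ (M - 1) * (H + G) * (H + G - 2) := by
    have e1 : (M₁ - 1 + c) * ((H + G) * (H + G - 2)) ≤ (M - 1) * ((H + G) * (H + G - 2)) := by
      apply mul_le_mul_of_nonneg_right (by omega)
      exact mul_nonneg (by omega) (by omega)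
    have e2 := mul_le_mul_of_nonneg_right ih (show (0 : ℤ) ≤ H + G by omega)
    have e3 : 0 ≤ (c - 1) * (2 * H * G - (H + G)) :=
      mul_nonneg (by omega) (by nlinarith)
    have e4 : 0 ≤ (H + G) * (H + G - 2) := mul_nonneg (by omega) (by omega)
    nlinarith [e1, e2, e3, e4]
  exact le_of_mul_le_mul_right key hN'

/-- the algebra of the case in which the rank drops -/
lemma alg3 (H G c M M₁ r : ℤ) (hH : 1 ≤ H) (hG : 1 ≤ G) (hM : M₁ + (H + G - r) + 1 ≤ M)
    (h2 : 2 ≤ c) (hr0 : 0 ≤ r) (hrH : r ≤ H) (hrG : r ≤ G) (hc : c ≤ H + G)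
    (hcr : 1 ≤ r → c + r ≤ H + G + 1) (hM₁ : 1 ≤ M₁)
    (ih : (c - 2) * ((H - 1) * (G - 1) + (H - 1) + (G - 1)) ≤ (M₁ - 1) * ((H - 1) + (G - 1))) :
    (c - 1) * (H * G + H + G) ≤ (M - 1) * (H + G) := by
  by_cases hN : H + G = 2
  · have h3 : H = 1 := by omega
    have h4 : G = 1 := by omega
    subst h3 h4
    omega
  have hN' : 0 < H + G - 2 := by omega
  have key : (c - 1) * (H * G + H + G) * (H + G - 2) ≤ (M - 1) * (H + G) * (H + G - 2) := by
    have e1 : (M₁ - 1 + (H + G - r) + 1) * ((H + G) * (H + G - 2)) ≤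
        (M - 1) * ((H + G) * (H + G - 2)) := by
      apply mul_le_mul_of_nonneg_right (by omega)
      exact mul_nonneg (by omega) (by omega)
    have e2 := mul_le_mul_of_nonneg_right ih (show (0 : ℤ) ≤ H + G by omega)
    -- the coefficient of `c - 2` is negative
    have e3 : 2 * H * G + (H + G) - (H + G) ^ 2 ≤ 0 := by nlinarith
    by_cases hr : 1 ≤ r
    · have e4 : 0 ≤ (H + G - r - 1 - (c - 2)) * -(2 * H * G + (H + G) - (H + G) ^ 2) :=
        mul_nonneg (by have := hcr hr; omega) (by linarith)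
      have e5 : 0 ≤ H * G * (H + G - 2 * r) :=
        mul_nonneg (mul_nonneg (by omega) (by omega)) (by omega)
      have e6 : 0 ≤ (H + G) * (r - 1) := mul_nonneg (by omega) (by omega)
      nlinarith [e1, e2, e4, e5, e6]
    · have hr' : r = 0 := by omega
      subst hr'
      have e4 : 0 ≤ (H + G - 2 - (c - 2)) * -(2 * H * G + (H + G) - (H + G) ^ 2) :=
        mul_nonneg (by omega) (by linarith)
      have e5 : 0 ≤ (H + G - 2) * (H * G + (H + G)) :=
        mul_nonneg (by omega) (by nlinarith)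
      nlinarith [e1, e2, e4, e5]
  exact le_of_mul_le_mul_right key hN'

/-- the statement of the inequality -/
def Ineq (X K : Finset ℤ) (Φ : ℤ → V) (θ : ℤ) : Prop :=
  ((rk Φ (X + K) : ℤ) - 1) * (((X.card : ℤ) - 1) * ((K.card : ℤ) - 1) + ((X.card : ℤ) - 1) +
    ((K.card : ℤ) - 1)) ≤ ((up θ (X + K) : ℤ) - 1) * (((X.card : ℤ) - 1) + ((K.card : ℤ) - 1))

lemma Ineq.symm {X K : Finset ℤ} {Φ : ℤ → V} {θ : ℤ} (h : Ineq K X Φ θ) : Ineq X K Φ θ := by
  unfold Ineq at *
  rw [add_comm X K]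
  linarith [h, mul_comm ((X.card : ℤ) - 1) ((K.card : ℤ) - 1)]

/-- the step in which a removal lowers the rank -/
lemma step1 {X K : Finset ℤ} {f e Φ : ℤ → V} {θ : ℤ} (D : Dat X K f e Φ θ) {x₀ : ℤ}
    (hx₀ : x₀ ∈ X) (hX : (X.erase x₀).Nonempty) (hK : K.Nonempty)
    (hlt : rk Φ (X.erase x₀ + K) < rk Φ (X + K)) (ih : Ineq (X.erase x₀) K Φ θ) :
    Ineq X K Φ θ := by
  classical
  have hd := D.drop hx₀ hX hlt
  have h1 := D.rk_erase hx₀ hX hK
  have hcX : (X.erase x₀).card + 1 = X.card := Finset.card_erase_add_one hx₀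
  have hcX1 : 1 ≤ (X.erase x₀).card := hX.card_pos
  have hcK : 1 ≤ K.card := hK.card_pos
  have hup : up θ (X.erase x₀ + K) + K.card ≤ up θ (X + K) := by
    have := up_add_le θ (S := X + K) (S' := X.erase x₀ + K) (E := K.image (x₀ + ·))
      (Finset.add_subset_add_right (Finset.erase_subset _ _))
      (by
        intro y hy
        obtain ⟨k, hk, rfl⟩ := Finset.mem_image.1 hy
        exact Finset.add_mem_add hx₀ hk)
      (by
        intro y hy
        obtain ⟨k, hk, rfl⟩ := Finset.mem_image.1 hy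
        by_contra hlt'
        apply hd k hk
        rw [D.zero x₀ hx₀ k hk (not_le.1 hlt')]
        exact Submodule.zero_mem _)
      (by
        intro y hy hy'
        obtain ⟨k, hk, rfl⟩ := Finset.mem_image.1 hy
        exact hd k hk (Submodule.subset_span ⟨_, Finset.mem_coe.2 hy', rfl⟩))
    rwa [Finset.card_image_of_injective _ (fun a b (h : x₀ + a = x₀ + b) => by omega)] at this
  have h3 := D.rk_le_pred ⟨x₀, hx₀⟩ hK
  have h4 : rk Φ (X + K) ≤ up θ (X + K) := rk_le_filter Φ _ θ D.zero'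
  have h5 : rk Φ (X + K) = rk Φ (X.erase x₀ + K) + 1 := by omega
  unfold Ineq at *
  by_cases hc : rk Φ (X + K) = 1
  · rw [hc]
    have : 0 ≤ ((up θ (X + K) : ℤ) - 1) * (((X.card : ℤ) - 1) + ((K.card : ℤ) - 1)) :=
      mul_nonneg (by omega) (by omega)
    simpa using this
  · refine alg1 _ _ _ _ (up θ (X.erase x₀ + K)) (by omega) (by omega) (by omega) (by omega)
      (by omega) (by omega) ?_
    have e1 : ((rk Φ (X + K) : ℤ) - 2) = ((rk Φ (X.erase x₀ + K) : ℤ) - 1) := by omega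
    have e2 : ((X.card : ℤ) - 1 - 1) = (((X.erase x₀).card : ℤ) - 1) := by omega
    rw [e1, e2]
    exact ih

/-- the key inequality -/
theorem key (θ : ℤ) : ∀ n : ℕ, ∀ (X K : Finset ℤ) (f e Φ : ℤ → V), X.card + K.card = n →
    X.Nonempty → K.Nonempty → Dat X K f e Φ θ → Ineq X K Φ θ := by
  classical
  intro n
  induction n using Nat.strong_induction_on with
  | _ n ih =>
  intro X K f e Φ hn hX hK D
  have hcX : 1 ≤ X.card := hX.card_pos
  have hcK : 1 ≤ K.card := hK.card_pos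
  have h4 : rk Φ (X + K) ≤ up θ (X + K) := rk_le_filter Φ _ θ D.zero'
  -- base cases
  by_cases hX1 : X.card = 1
  · unfold Ineq
    rw [hX1]
    have : ((rk Φ (X + K) : ℤ) - 1) * ((K.card : ℤ) - 1) ≤
        ((up θ (X + K) : ℤ) - 1) * ((K.card : ℤ) - 1) :=
      mul_le_mul_of_nonneg_right (by omega) (by omega)
    push_cast
    linarith
  by_cases hK1 : K.card = 1
  · unfold Ineq
    rw [hK1]
    have : ((rk Φ (X + K) : ℤ) - 1) * ((X.card : ℤ) - 1) ≤
        ((up θ (X + K) : ℤ) - 1) * ((X.card : ℤ) - 1) :=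
      mul_le_mul_of_nonneg_right (by omega) (by omega)
    push_cast
    linarith
  have herX : ∀ x ∈ X, (X.erase x).Nonempty := fun x hx => by
    rw [← Finset.card_pos, Finset.card_erase_of_mem hx]; omega
  have herK : ∀ k ∈ K, (K.erase k).Nonempty := fun k hk => by
    rw [← Finset.card_pos, Finset.card_erase_of_mem hk]; omega
  -- a removal which lowers the rank
  by_cases h1 : ∃ x ∈ X, rk Φ (X.erase x + K) < rk Φ (X + K)
  · obtain ⟨x, hx, hlt⟩ := h1
    refine step1 D hx (herX x hx) hK hlt ?_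
    exact ih ((X.erase x).card + K.card) (by rw [Finset.card_erase_of_mem hx]; omega) _ _ f e Φ rfl
      (herX x hx) hK (D.mono (Finset.erase_subset _ _) subset_rfl)
  by_cases h2 : ∃ k ∈ K, rk Φ (X + K.erase k) < rk Φ (X + K)
  · obtain ⟨k, hk, hlt⟩ := h2
    apply Ineq.symm
    refine step1 D.symm hk (herK k hk) hX (by rwa [add_comm _ X, add_comm K X]) ?_
    exact ih ((K.erase k).card + X.card) (by rw [Finset.card_erase_of_mem hk]; omega) _ _ e f Φ rfl
      (herK k hk) hX (D.symm.mono (Finset.erase_subset _ _) subset_rfl)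
  push Not at h1 h2
  -- remove the two largest elements
  set x₀ := X.max' hX with hx₀
  set k₀ := K.max' hK with hk₀
  have hx₀X : x₀ ∈ X := X.max'_mem hX
  have hk₀K : k₀ ∈ K := K.max'_mem hK
  have hxle : ∀ x ∈ X, x ≤ x₀ := fun x hx => X.le_max' x hx
  have hkle : ∀ k ∈ K, k ≤ k₀ := fun k hk => K.le_max' k hk
  set X₁ := X.erase x₀ with hX₁
  set K₁ := K.erase k₀ with hK₁
  have hX₁n := herX x₀ hx₀X
  have hK₁n := herK k₀ hk₀K
  have hxlt : ∀ x ∈ X₁, x < x₀ := fun x hx =>
    lt_of_le_of_ne (hxle x (Finset.mem_of_mem_erase hx)) (Finset.ne_of_mem_erase hx)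
  have hklt : ∀ k ∈ K₁, k < k₀ := fun k hk =>
    lt_of_le_of_ne (hkle k (Finset.mem_of_mem_erase hk)) (Finset.ne_of_mem_erase hk)
  have hcX₁ : X₁.card + 1 = X.card := Finset.card_erase_add_one hx₀X
  have hcK₁ : K₁.card + 1 = K.card := Finset.card_erase_add_one hk₀K
  have D₁ : Dat X₁ K₁ f e Φ θ := D.mono (Finset.erase_subset _ _) (Finset.erase_subset _ _)
  have hIH : Ineq X₁ K₁ Φ θ := ih (X₁.card + K₁.card) (by omega) _ _ f e Φ rfl hX₁n hK₁n D₁
  -- ranks
  have r1 : rk Φ (X₁ + K) = rk Φ (X + K) := le_antisymm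
    (rk_mono Φ (Finset.add_subset_add_right (Finset.erase_subset _ _))) (h1 x₀ hx₀X)
  have r2 : rk Φ (X + K₁) = rk Φ (X + K) := le_antisymm
    (rk_mono Φ (Finset.add_subset_add_left (Finset.erase_subset _ _))) (h2 k₀ hk₀K)
  have D₁K : Dat X₁ K f e Φ θ := D.mono (Finset.erase_subset _ _) subset_rfl
  have DK₁ : Dat X K₁ f e Φ θ := D.mono subset_rfl (Finset.erase_subset _ _)
  have r3 : rk Φ (X₁ + K) ≤ rk Φ (X₁ + K₁) + 1 := by
    have := D₁K.symm.rk_erase hk₀K hK₁n hX₁n
    rwa [add_comm K X₁, add_comm (K.erase k₀) X₁] at this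
  have r4 : rk Φ (X₁ + K₁) ≤ rk Φ (X₁ + K) :=
    rk_mono Φ (Finset.add_subset_add_left (Finset.erase_subset _ _))
  -- rank zero is trivial
  by_cases hc0 : rk Φ (X + K) ≤ 1
  · unfold Ineq
    by_cases hM0 : up θ (X + K) = 0
    · have : rk Φ (X + K) = 0 := by omega
      rw [hM0, this]
      push_cast
      have : 0 ≤ ((X.card : ℤ) - 1) * ((K.card : ℤ) - 1) := mul_nonneg (by omega) (by omega)
      linarith
    · have e1 : 0 ≤ ((up θ (X + K) : ℤ) - 1) * (((X.card : ℤ) - 1) + ((K.card : ℤ) - 1)) :=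
        mul_nonneg (by omega) (by omega)
      have e2 : ((rk Φ (X + K) : ℤ) - 1) * (((X.card : ℤ) - 1) * ((K.card : ℤ) - 1) +
          ((X.card : ℤ) - 1) + ((K.card : ℤ) - 1)) ≤ 0 := by
        apply mul_nonpos_of_nonpos_of_nonneg (by omega)
        have : 0 ≤ ((X.card : ℤ) - 1) * ((K.card : ℤ) - 1) := mul_nonneg (by omega) (by omega)
        linarith [hcX, hcK, this, (by omega : (0 : ℤ) ≤ (X.card : ℤ) - 1),
          (by omega : (0 : ℤ) ≤ (K.card : ℤ) - 1)]
      linarith
  rcases Nat.lt_or_ge (rk Φ (X₁ + K₁)) (rk Φ (X + K)) with hlt | hge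
  · -- the rank drops
    have d1 := D₁K.symm.drop hk₀K hK₁n (by
      rw [add_comm (K.erase k₀) X₁, add_comm K X₁, r1]; exact hlt)
    have d2 := DK₁.drop hx₀X hX₁n (by rw [r2]; exact hlt)
    have d1' : ∀ x ∈ X₁, Φ (x + k₀) ∉ Submodule.span ℚ (Φ '' ((X₁ + K₁ : Finset ℤ) : Set ℤ)) := by
      intro x hx
      have := d1 x hx
      rwa [add_comm k₀ x, add_comm (K.erase k₀) X₁] at this
    -- the common elements
    set P := X₁.filter (fun x => x + k₀ - x₀ ∈ K₁) with hP
    set E₁ := X₁.image (· + k₀) with hE₁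
    set E₂ := (K₁.image (x₀ + ·)) with hE₂
    have cE₁ : E₁.card = X₁.card :=
      Finset.card_image_of_injective _ (fun a b (h : a + k₀ = b + k₀) => by omega)
    have cE₂ : E₂.card = K₁.card :=
      Finset.card_image_of_injective _ (fun a b (h : x₀ + a = x₀ + b) => by omega)
    have hinter : E₁ ∩ E₂ = P.image (· + k₀) := by
      ext y
      simp only [hE₁, hE₂, hP, Finset.mem_inter, Finset.mem_image, Finset.mem_filter]
      constructor
      · rintro ⟨⟨x, hx, rfl⟩, k, hk, hk'⟩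
        exact ⟨x, ⟨hx, by rwa [show x + k₀ - x₀ = k by omega]⟩, rfl⟩
      · rintro ⟨x, ⟨hx, hk⟩, rfl⟩
        exact ⟨⟨x, hx, rfl⟩, x + k₀ - x₀, hk, by omega⟩
    have cP : (E₁ ∩ E₂).card = P.card := by
      rw [hinter]
      exact Finset.card_image_of_injective _ (fun a b (h : a + k₀ = b + k₀) => by omega)
    have cU : (E₁ ∪ E₂).card + P.card = X₁.card + K₁.card := by
      have := Finset.card_union_add_card_inter E₁ E₂
      omega
    have hPX : P.card ≤ X₁.card := Finset.card_filter_le _ _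
    have hPK : P.card ≤ K₁.card := by
      rw [← cP, ← cE₂]; exact Finset.card_le_card Finset.inter_subset_right
    have hrP : 1 ≤ P.card → rk Φ (X₁ + K₁) + P.card ≤ X₁.card + K₁.card := by
      intro hP1
      refine D₁.rk_le_sub (x₀ := x₀) (k₀ := k₀) P (Finset.filter_subset _ _)
        (fun x hx => (Finset.mem_filter.1 hx).2) ?_ (Finset.card_pos.1 hP1)
      intro x hx
      obtain ⟨hx1, hx2⟩ := Finset.mem_filter.1 hx
      rw [← D.add x (Finset.mem_of_mem_erase hx1) k₀ hk₀K,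
        ← D.add x₀ hx₀X _ (Finset.mem_of_mem_erase hx2)]
      congr 1; omega
    have hrpred := D₁.rk_le_pred hX₁n hK₁n
    -- the new elements
    have hmax : θ ≤ x₀ + k₀ := by
      have : 0 < up θ (X + K) := by omega
      obtain ⟨y, hy⟩ := Finset.card_pos.1 this
      obtain ⟨hy1, hy2⟩ := Finset.mem_filter.1 hy
      obtain ⟨x, hx, k, hk, rfl⟩ := Finset.mem_add.1 hy1
      have := hxle x hx
      have := hkle k hk
      linarith
    have hnotmem : x₀ + k₀ ∉ X₁ + K₁ := by
      intro h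
      obtain ⟨x, hx, k, hk, hxk⟩ := Finset.mem_add.1 h
      have := hxlt x hx
      have := hklt k hk
      omega
    have hnotmem' : x₀ + k₀ ∉ E₁ ∪ E₂ := by
      intro h
      rcases Finset.mem_union.1 h with h | h
      · obtain ⟨x, hx, hxk⟩ := Finset.mem_image.1 h
        have := hxlt x hx
        omega
      · obtain ⟨k, hk, hxk⟩ := Finset.mem_image.1 h
        have := hklt k hk
        omega
    have hup : up θ (X₁ + K₁) + (insert (x₀ + k₀) (E₁ ∪ E₂)).card ≤ up θ (X + K) := by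
      refine up_add_le θ (Finset.add_subset_add (Finset.erase_subset _ _)
        (Finset.erase_subset _ _)) ?_ ?_ ?_
      · intro y hy
        rcases Finset.mem_insert.1 hy with rfl | hy
        · exact Finset.add_mem_add hx₀X hk₀K
        rcases Finset.mem_union.1 hy with hy | hy
        · obtain ⟨x, hx, rfl⟩ := Finset.mem_image.1 hy
          exact Finset.add_mem_add (Finset.mem_of_mem_erase hx) hk₀K
        · obtain ⟨k, hk, rfl⟩ := Finset.mem_image.1 hy
          exact Finset.add_mem_add hx₀X (Finset.mem_of_mem_erase hk)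
      · intro y hy
        rcases Finset.mem_insert.1 hy with rfl | hy
        · exact hmax
        rcases Finset.mem_union.1 hy with hy | hy
        · obtain ⟨x, hx, rfl⟩ := Finset.mem_image.1 hy
          by_contra hlt'
          apply d1' x hx
          rw [D.zero x (Finset.mem_of_mem_erase hx) k₀ hk₀K (not_le.1 hlt')]
          exact Submodule.zero_mem _
        · obtain ⟨k, hk, rfl⟩ := Finset.mem_image.1 hy
          by_contra hlt'
          apply d2 k hk
          rw [D.zero x₀ hx₀X k (Finset.mem_of_mem_erase hk) (not_le.1 hlt')]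
          exact Submodule.zero_mem _
      · intro y hy hy'
        rcases Finset.mem_insert.1 hy with rfl | hy
        · exact hnotmem hy'
        rcases Finset.mem_union.1 hy with hy | hy
        · obtain ⟨x, hx, rfl⟩ := Finset.mem_image.1 hy
          exact d1' x hx (Submodule.subset_span ⟨_, Finset.mem_coe.2 hy', rfl⟩)
        · obtain ⟨k, hk, rfl⟩ := Finset.mem_image.1 hy
          exact d2 k hk (Submodule.subset_span ⟨_, Finset.mem_coe.2 hy', rfl⟩)
    rw [Finset.card_insert_of_notMem hnotmem'] at hup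
    have hM₁ : rk Φ (X₁ + K₁) ≤ up θ (X₁ + K₁) := rk_le_filter Φ _ θ D₁.zero'
    have hrk : rk Φ (X + K) = rk Φ (X₁ + K₁) + 1 := by omega
    unfold Ineq at *
    refine alg3 _ _ _ _ (up θ (X₁ + K₁)) P.card (by omega) (by omega) (by omega) (by omega)
      (by omega) (by omega) (by omega) (by omega) (by omega) (by omega) ?_
    have e1 : ((rk Φ (X + K) : ℤ) - 2) = ((rk Φ (X₁ + K₁) : ℤ) - 1) := by omega
    have e2 : ((X.card : ℤ) - 1 - 1) = ((X₁.card : ℤ) - 1) := by omega
    have e3 : ((K.card : ℤ) - 1 - 1) = ((K₁.card : ℤ) - 1) := by omega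
    rw [e1, e2, e3]
    exact hIH
  · -- the rank does not drop
    have hrk : rk Φ (X₁ + K₁) = rk Φ (X + K) := by omega
    set L := (X + K) \ (X₁ + K₁) with hL
    have hLspan : ∀ y ∈ X + K, Φ y ∈ Submodule.span ℚ (Φ '' ((L : Finset ℤ) : Set ℤ)) := by
      have hmaxL : x₀ + k₀ ∈ L := by
        rw [hL, Finset.mem_sdiff]
        refine ⟨Finset.add_mem_add hx₀X hk₀K, ?_⟩
        intro h
        obtain ⟨x, hx, k, hk, hxk⟩ := Finset.mem_add.1 h
        have := hxlt x hx
        have := hklt k hk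
        omega
      have hmaxS : Φ (x₀ + k₀) ∈ Submodule.span ℚ (Φ '' ((L : Finset ℤ) : Set ℤ)) :=
        Submodule.subset_span ⟨_, Finset.mem_coe.2 hmaxL, rfl⟩
      have claim : ∀ m : ℕ, (∀ k ∈ K, x₀ + k₀ - (x₀ + k) = m →
          Φ (x₀ + k) ∈ Submodule.span ℚ (Φ '' ((L : Finset ℤ) : Set ℤ))) ∧
          (∀ x ∈ X, x₀ + k₀ - (x + k₀) = m →
          Φ (x + k₀) ∈ Submodule.span ℚ (Φ '' ((L : Finset ℤ) : Set ℤ))) := by
        intro m
        induction m using Nat.strong_induction_on with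
        | _ m ihm =>
        have gen : ∀ y ∈ X + K, x₀ + k₀ - y = m →
            Φ y ∈ Submodule.span ℚ (Φ '' ((L : Finset ℤ) : Set ℤ)) := by
          intro y hy hym
          by_cases hyL : y ∈ L
          · exact Submodule.subset_span ⟨_, Finset.mem_coe.2 hyL, rfl⟩
          have hy1 : y ∈ X₁ + K₁ := by
            by_contra h
            exact hyL (Finset.mem_sdiff.2 ⟨hy, h⟩)
          obtain ⟨x, hx, k, hk, rfl⟩ := Finset.mem_add.1 hy1
          have hxX := Finset.mem_of_mem_erase hx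
          have hkK := Finset.mem_of_mem_erase hk
          have l1 := hxlt x hx
          have l2 := hklt k hk
          have a1 := (ihm (x₀ + k₀ - (x₀ + k)).toNat (by omega)).1 k hkK (by omega)
          have a2 := (ihm (x₀ + k₀ - (x + k₀)).toNat (by omega)).2 x hxX (by omega)
          have e1 : Φ (x + k) = Φ (x + k₀) + Φ (x₀ + k) - Φ (x₀ + k₀) := by
            rw [D.add x hxX k hkK, D.add x hxX k₀ hk₀K, D.add x₀ hx₀X k hkK,
              D.add x₀ hx₀X k₀ hk₀K]
            abel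
          rw [e1]
          exact Submodule.sub_mem _ (Submodule.add_mem _ a2 a1) hmaxS
        exact ⟨fun k hk h => gen _ (Finset.add_mem_add hx₀X hk) h,
          fun x hx h => gen _ (Finset.add_mem_add hx hk₀K) h⟩
      intro y hy
      obtain ⟨x, hx, k, hk, rfl⟩ := Finset.mem_add.1 hy
      have a1 := (claim (x₀ + k₀ - (x₀ + k)).toNat).1 k hk (by have := hkle k hk; omega)
      have a2 := (claim (x₀ + k₀ - (x + k₀)).toNat).2 x hx (by have := hxle x hx; omega)
      have e1 : Φ (x + k) = Φ (x + k₀) + Φ (x₀ + k) - Φ (x₀ + k₀) := by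
        rw [D.add x hx k hk, D.add x hx k₀ hk₀K, D.add x₀ hx₀X k hk, D.add x₀ hx₀X k₀ hk₀K]
        abel
      rw [e1]
      exact Submodule.sub_mem _ (Submodule.add_mem _ a2 a1) hmaxS
    have hL1 : rk Φ (X + K) ≤ rk Φ L := by
      apply rk_le_of_le
      rw [Submodule.span_le]
      rintro _ ⟨y, hy, rfl⟩
      exact hLspan y (Finset.mem_coe.1 hy)
    have hL2 : rk Φ L ≤ (L.filter (θ ≤ ·)).card :=
      rk_le_filter Φ L θ (fun y hy h => D.zero' y (Finset.mem_sdiff.1 hy).1 h)
    have hup : up θ (X₁ + K₁) + (L.filter (θ ≤ ·)).card ≤ up θ (X + K) := by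
      refine up_add_le θ (Finset.add_subset_add (Finset.erase_subset _ _)
        (Finset.erase_subset _ _)) ?_ ?_ ?_
      · exact (Finset.filter_subset _ _).trans Finset.sdiff_subset
      · intro y hy
        exact (Finset.mem_filter.1 hy).2
      · intro y hy
        exact (Finset.mem_sdiff.1 (Finset.mem_filter.1 hy).1).2
    have hrpred := D₁.rk_le_pred hX₁n hK₁n
    unfold Ineq at *
    refine alg2 _ _ _ _ (up θ (X₁ + K₁)) (by omega) (by omega) (by omega) (by omega)
      (by omega) (by omega) ?_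
    have e1 : ((rk Φ (X + K) : ℤ) - 1) = ((rk Φ (X₁ + K₁) : ℤ) - 1) := by omega
    have e2 : ((X.card : ℤ) - 1 - 1) = ((X₁.card : ℤ) - 1) := by omega
    have e3 : ((K.card : ℤ) - 1 - 1) = ((K₁.card : ℤ) - 1) := by omega
    rw [e1, e2, e3]
    exact hIH

end rank

end Pool.Agent.Q153.CHG
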