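import Mathlib
import Pool.Agent.Q153.CHG.Key

/-!
# Free cells of a sumset `X + K` and the weight inequality

A configuration is a pair of injective maps `x : Fin h → ℤ`, `k : Fin g → ℤ`; its cells are the pairs
`p = (i, j)` with the sum `sm x k p = x i + k j`. A cell is *free* if its sum is not determined (by the
coincidences of the sums) by the smaller sums.
-/

set_option autoImplicit false
set_option linter.unusedSectionVars false

namespace Pool.Agent.Q153.CHG

open Finset Pointwise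

variable {h g : ℕ}

/-- the sum at a cell -/
def sm (x : Fin h → ℤ) (k : Fin g → ℤ) (p : Fin h × Fin g) : ℤ := x p.1 + k p.2

/-- the pair `d` satisfies the linear relations of `s` -/
def Lin (s : Fin h × Fin g → ℤ) (d : (Fin h → ℤ) × (Fin g → ℤ)) : Prop :=
  ∀ p q, s p = s q → sm d.1 d.2 p = sm d.1 d.2 q

/-- a free cell -/
def IsFree (s : Fin h × Fin g → ℤ) (p : Fin h × Fin g) : Prop :=
  ∃ d, Lin s d ∧ (∀ q, s q < s p → sm d.1 d.2 q = 0) ∧ sm d.1 d.2 p ≠ 0

/-- a canonical free cell -/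
def CF (s : Fin h × Fin g → ℤ) (p : Fin h × Fin g) : Prop :=
  IsFree s p ∧ ∀ q, s q = s p → p.1 ≤ q.1

/-- the canonical free cells depend only on the order type -/
lemma CF_congr {s s' : Fin h × Fin g → ℤ} (hs : ∀ p q, s p ≤ s q ↔ s' p ≤ s' q)
    (p : Fin h × Fin g) : CF s p ↔ CF s' p := by
  have e1 : ∀ p q, s p = s q ↔ s' p = s' q := fun p q => by
    rw [le_antisymm_iff, le_antisymm_iff, hs, hs]
  have e2 : ∀ p q, s p < s q ↔ s' p < s' q := fun p q => by
    rw [← not_le, ← not_le, hs]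
  unfold CF IsFree Lin
  simp only [e1, e2]

/-- the values at the canonical free cells determine all the sums -/
lemma determined {x x' : Fin h → ℤ} {k k' : Fin g → ℤ} 
    (hs : ∀ p q, sm x k p ≤ sm x k q ↔ sm x' k' p ≤ sm x' k' q)
    (hz : ∀ p, CF (sm x k) p → sm x k p = sm x' k' p) : sm x k = sm x' k' := by
  classical
  by_contra hne
  obtain ⟨p₀, hp₀⟩ : ∃ p, sm x k p ≠ sm x' k' p := by
    by_contra hcon
    push Not at hcon
    exact hne (funext hcon)
  -- a counterexample with the smallest sum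
  have hne1 : (univ.filter (fun p => sm x k p ≠ sm x' k' p)).Nonempty := ⟨p₀, by simpa using hp₀⟩
  obtain ⟨p₁, hp₁, hmin⟩ := Finset.exists_min_image _ (sm x k) hne1
  rw [Finset.mem_filter] at hp₁
  -- the canonical representative
  have hne2 : (univ.filter (fun p => sm x k p = sm x k p₁)).Nonempty := ⟨p₁, by simp⟩
  obtain ⟨p₂, hp₂, hmin2⟩ := Finset.exists_min_image _ (fun p : Fin h × Fin g => p.1) hne2
  rw [Finset.mem_filter] at hp₂
  set d : (Fin h → ℤ) × (Fin g → ℤ) := (fun i => x i - x' i, fun j => k j - k' j) with hd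
  have hv : ∀ q, sm d.1 d.2 q = sm x k q - sm x' k' q := fun q => by
    simp only [sm, hd]; ring
  have hlin : Lin (sm x k) d := by
    intro p q hpq
    have : sm x' k' p = sm x' k' q := le_antisymm ((hs p q).1 hpq.le) ((hs q p).1 hpq.ge)
    rw [hv, hv, hpq, this]
  have h2 : sm x k p₂ ≠ sm x' k' p₂ := by
    intro heq
    apply hp₁.2
    have h3 := hlin p₂ p₁ hp₂.2
    rw [hv, hv, heq] at h3
    linarith
  apply h2
  apply hz
  refine ⟨⟨d, hlin, ?_, ?_⟩, ?_⟩
  · intro q hq
    rw [hv, sub_eq_zero]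
    by_contra hcon
    have := hmin q (by simpa using hcon)
    rw [hp₂.2] at hq
    exact absurd hq (not_lt.2 this)
  · rw [hv, sub_ne_zero]; exact h2
  · intro q hq
    exact hmin2 q (by simp [hq, hp₂.2])

/-- the set of the sums -/
def Ys (x : Fin h → ℤ) (k : Fin g → ℤ) : Finset ℤ := univ.image (sm x k)

open Classical in
/-- the set of the free sums -/
noncomputable def Zs (x : Fin h → ℤ) (k : Fin g → ℤ) : Finset ℤ :=
  (univ.filter (CF (sm x k))).image (sm x k)

lemma Zs_subset (x : Fin h → ℤ) (k : Fin g → ℤ) : Zs x k ⊆ Ys x k := by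
  classical
  unfold Zs Ys
  exact Finset.image_subset_image (Finset.filter_subset _ _)

lemma sm_injOn {x : Fin h → ℤ} {k : Fin g → ℤ} (hk : Function.Injective k) :
    Set.InjOn (sm x k) {p | CF (sm x k) p} := by
  intro p hp q hq hpq
  have h1 : p.1 = q.1 := le_antisymm (hp.2 q hpq.symm) (hq.2 p hpq)
  have h2 : k p.2 = k q.2 := by
    have : x p.1 + k p.2 = x q.1 + k q.2 := hpq
    rw [h1] at this
    linarith
  exact Prod.ext h1 (hk h2)

/-- the counting inequality -/
theorem count_ineq (hh : 1 ≤ h) (hg : 1 ≤ g) {x : Fin h → ℤ} {k : Fin g → ℤ}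
    (hx : Function.Injective x) (hk : Function.Injective k) (θ : ℤ) :
    ((((Zs x k).filter (θ ≤ ·)).card : ℤ) - 1) * ((h : ℤ) * g - 1) ≤
      ((((Ys x k).filter (θ ≤ ·)).card : ℤ) - 1) * ((h : ℤ) + g - 2) := by
  classical
  -- the test vectors
  let D := {d : (Fin h → ℤ) × (Fin g → ℤ) // Lin (sm x k) d ∧ ∀ q, sm x k q < θ → sm d.1 d.2 q = 0}
  let f : ℤ → (D → ℚ) := Function.extend x (fun i d => (d.1.1 i : ℚ)) 0
  let e : ℤ → (D → ℚ) := Function.extend k (fun j d => (d.1.2 j : ℚ)) 0
  let Φ : ℤ → (D → ℚ) := fun z d => if hz : ∃ p, sm x k p = z then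
    ((sm d.1.1 d.1.2 hz.choose : ℤ) : ℚ) else 0
  have hΦ : ∀ p, Φ (sm x k p) = fun d : D => ((sm d.1.1 d.1.2 p : ℤ) : ℚ) := by
    intro p
    funext d
    have hz : ∃ q, sm x k q = sm x k p := ⟨p, rfl⟩
    simp only [Φ, dif_pos hz]
    rw [d.2.1 _ _ hz.choose_spec]
  have hf : ∀ i, f (x i) = fun d : D => (d.1.1 i : ℚ) := fun i => hx.extend_apply _ _ i
  have he : ∀ j, e (k j) = fun d : D => (d.1.2 j : ℚ) := fun j => hk.extend_apply _ _ j
  set X : Finset ℤ := univ.image x with hX
  set K : Finset ℤ := univ.image k with hK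
  have hXK : X + K = Ys x k := by
    ext y
    simp only [hX, hK, Ys, Finset.mem_add, Finset.mem_image, Finset.mem_univ, true_and]
    constructor
    · rintro ⟨_, ⟨i, rfl⟩, _, ⟨j, rfl⟩, rfl⟩
      exact ⟨(i, j), rfl⟩
    · rintro ⟨p, rfl⟩
      exact ⟨x p.1, ⟨p.1, rfl⟩, k p.2, ⟨p.2, rfl⟩, rfl⟩
  have hXc : X.card = h := by rw [hX, Finset.card_image_of_injective _ hx]; simp
  have hKc : K.card = g := by rw [hK, Finset.card_image_of_injective _ hk]; simp
  have hDat : Dat X K f e Φ θ := by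
    refine ⟨?_, ?_⟩
    · rintro _ hx' _ hk'
      obtain ⟨i, -, rfl⟩ := Finset.mem_image.1 hx'
      obtain ⟨j, -, rfl⟩ := Finset.mem_image.1 hk'
      rw [hf, he, show x i + k j = sm x k (i, j) from rfl, hΦ]
      funext d
      simp [sm]
    · rintro _ hx' _ hk' hlt
      obtain ⟨i, -, rfl⟩ := Finset.mem_image.1 hx'
      obtain ⟨j, -, rfl⟩ := Finset.mem_image.1 hk'
      rw [show x i + k j = sm x k (i, j) from rfl, hΦ]
      funext d
      have := d.2.2 (i, j) hlt
      simp [this]
  have hkey := key θ (X.card + K.card) X K f e Φ rfl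
    (by rw [← Finset.card_pos, hXc]; omega) (by rw [← Finset.card_pos, hKc]; omega) hDat
  unfold Ineq at hkey
  rw [hXK, hXc, hKc] at hkey
  -- the rank is at least the number of free sums above the threshold
  have hrank : ((Zs x k).filter (θ ≤ ·)).card ≤ rk Φ (Ys x k) := by
    have hind : ∀ S : Finset ℤ, (∀ z ∈ S, z ∈ Zs x k ∧ θ ≤ z) → S.card ≤ rk Φ S := by
      intro S
      induction S using Finset.induction_on_max with
      | empty => intro _; simp
      | insert a S hmax ih =>
        intro hS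
        have ha : a ∉ S := fun h' => lt_irrefl _ (hmax a h')
        rw [Finset.card_insert_of_notMem ha]
        have ih' := ih (fun z hz => hS z (Finset.mem_insert_of_mem hz))
        refine lt_of_le_of_lt ih' ?_
        apply Submodule.finrank_lt_finrank_of_lt
        refine lt_of_le_of_ne (Submodule.span_mono (Set.image_mono (by
          exact_mod_cast Finset.subset_insert a S))) ?_
        intro heq
        obtain ⟨haZ, haθ⟩ := hS a (Finset.mem_insert_self a S)
        obtain ⟨p, hp, rfl⟩ := Finset.mem_image.1 haZ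
        rw [Finset.mem_filter] at hp
        obtain ⟨⟨d, hd1, hd2, hd3⟩, -⟩ := hp.2
        have hmem : Φ (sm x k p) ∈ Submodule.span ℚ (Φ '' (S : Set ℤ)) := by
          rw [heq]
          exact Submodule.subset_span ⟨_, by simp, rfl⟩
        let dd : D := ⟨d, hd1, fun q hq => hd2 q (lt_of_lt_of_le hq haθ)⟩
        have hle : Submodule.span ℚ (Φ '' (S : Set ℤ)) ≤ LinearMap.ker (LinearMap.proj dd :
            (D → ℚ) →ₗ[ℚ] ℚ) := by
          rw [Submodule.span_le]
          rintro _ ⟨z, hz, rfl⟩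
          have hz' := hmax z hz
          obtain ⟨q, -, rfl⟩ := Finset.mem_image.1 (hS z (Finset.mem_insert_of_mem hz)).1
          rw [SetLike.mem_coe, LinearMap.mem_ker, LinearMap.proj_apply, hΦ]
          have := hd2 q hz'
          simp [dd, this]
        have h0 := hle hmem
        rw [LinearMap.mem_ker, LinearMap.proj_apply, hΦ] at h0
        apply hd3
        have : ((sm d.1 d.2 p : ℤ) : ℚ) = 0 := h0
        exact_mod_cast this
    refine (hind _ (fun z hz => Finset.mem_filter.1 hz)).trans (rk_mono Φ ?_)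
    exact (Finset.filter_subset _ _).trans (Zs_subset x k)
  have h1 : (0 : ℤ) ≤ (h : ℤ) * g - 1 := by
    have : (1 : ℤ) ≤ (h : ℤ) * g := by exact_mod_cast Nat.mul_pos hh hg
    omega
  calc ((((Zs x k).filter (θ ≤ ·)).card : ℤ) - 1) * ((h : ℤ) * g - 1)
      ≤ ((rk Φ (Ys x k) : ℤ) - 1) * ((h : ℤ) * g - 1) :=
        mul_le_mul_of_nonneg_right (by omega) h1
    _ = ((rk Φ (Ys x k) : ℤ) - 1) * (((h : ℤ) - 1) * ((g : ℤ) - 1) + ((h : ℤ) - 1) + ((g : ℤ) - 1)) := by
        ring
    _ ≤ ((up θ (Ys x k) : ℤ) - 1) * (((h : ℤ) - 1) + ((g : ℤ) - 1)) := hkey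
    _ = ((((Ys x k).filter (θ ≤ ·)).card : ℤ) - 1) * ((h : ℤ) + g - 2) := by
        unfold up; ring

end Pool.Agent.Q153.CHG
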