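import Mathlib
import Pool.Agent.Q153.CHG.Cells

/-!
# The weight of a configuration
-/

set_option autoImplicit false

namespace Pool.Agent.Q153.CHG

open Finset

variable {h g : ℕ}

/-- the increments of the logarithm -/
noncomputable def ell (i : ℕ) : ℝ := Real.log (i + 2) - Real.log (i + 1)

lemma ell_nonneg (i : ℕ) : 0 ≤ ell i := by
  unfold ell
  rw [sub_nonneg]
  exact Real.log_le_log (by positivity) (by linarith)

lemma sum_ell (n : ℕ) : ∑ i ∈ range n, ell i = Real.log (n + 1) := by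
  induction n with
  | zero => simp
  | succ n ih =>
    rw [Finset.sum_range_succ, ih, ell]
    push_cast
    ring_nf

lemma log_eq (m n : ℤ) (hn : 1 ≤ n) (hnm : n ≤ m) :
    Real.log n = ∑ i ∈ range (m.toNat - 1), if (i : ℤ) + 2 ≤ n then ell i else 0 := by
  rw [← Finset.sum_filter]
  have hset : (range (m.toNat - 1)).filter (fun i : ℕ => (i : ℤ) + 2 ≤ n) = range (n.toNat - 1) := by
    ext i
    simp only [Finset.mem_filter, Finset.mem_range]
    omega
  rw [hset, sum_ell]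
  congr 1
  have : ((n.toNat - 1 : ℕ) : ℤ) + 1 = n := by omega
  exact_mod_cast this.symm

lemma sum_log_eq (S : Finset ℤ) (m : ℤ) (h1 : ∀ y ∈ S, 1 ≤ y) (h2 : ∀ y ∈ S, y ≤ m) :
    ∑ y ∈ S, Real.log y = ∑ i ∈ range (m.toNat - 1),
      ell i * ((S.filter (((i : ℤ) + 2) ≤ ·)).card : ℝ) := by
  rw [Finset.sum_congr rfl (fun y hy => log_eq m y (h1 y hy) (h2 y hy)), Finset.sum_comm]
  apply Finset.sum_congr rfl
  intro i _
  rw [← Finset.sum_filter, Finset.sum_const, nsmul_eq_mul, mul_comm]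

/-- the exponent -/
noncomputable def beta (h g : ℕ) : ℝ := ((h : ℝ) + g - 2) / ((h : ℝ) * g - 1)

lemma hg_pos (hh : 2 ≤ h) (hg : 2 ≤ g) : (0 : ℝ) < (h : ℝ) * g - 1 := by
  have h1 : (2 : ℝ) ≤ h := by exact_mod_cast hh
  have h2 : (2 : ℝ) ≤ g := by exact_mod_cast hg
  nlinarith

lemma beta_pos (hh : 2 ≤ h) (hg : 2 ≤ g) : 0 < beta h g := by
  have h1 : (2 : ℝ) ≤ h := by exact_mod_cast hh
  have h2 : (2 : ℝ) ≤ g := by exact_mod_cast hg
  exact div_pos (by linarith) (hg_pos hh hg)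

lemma beta_lt_one (hh : 2 ≤ h) (hg : 2 ≤ g) : beta h g < 1 := by
  have h1 : (2 : ℝ) ≤ h := by exact_mod_cast hh
  have h2 : (2 : ℝ) ≤ g := by exact_mod_cast hg
  unfold beta
  rw [div_lt_one (hg_pos hh hg)]
  nlinarith

theorem weight_ineq (hh : 2 ≤ h) (hg : 2 ≤ g) {x : Fin h → ℤ} {k : Fin g → ℤ}
    (hx : Function.Injective x) (hk : Function.Injective k) (m : ℤ) (hm : m ∈ Ys x k)
    (hmax : ∀ y ∈ Ys x k, y ≤ m) (hpos : ∀ y ∈ Ys x k, 1 ≤ y) :
    ∑ z ∈ Zs x k, Real.log z ≤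
      Real.log m + beta h g * (∑ y ∈ Ys x k, Real.log y - Real.log m) := by
  have hm1 := hpos m hm
  rw [sum_log_eq (Zs x k) m (fun y hy => hpos y (Zs_subset x k hy))
    (fun y hy => hmax y (Zs_subset x k hy)), sum_log_eq (Ys x k) m hpos hmax]
  have hlogm : Real.log m = ∑ i ∈ range (m.toNat - 1), ell i := by
    rw [sum_ell]
    congr 1
    have : ((m.toNat - 1 : ℕ) : ℤ) + 1 = m := by omega
    exact_mod_cast this.symm
  rw [hlogm, ← Finset.sum_sub_distrib, Finset.mul_sum, ← Finset.sum_add_distrib]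
  apply Finset.sum_le_sum
  intro i hi
  rw [Finset.mem_range] at hi
  have h1 := count_ineq (by omega) (by omega) hx hk ((i : ℤ) + 2)
  set cZ := ((Zs x k).filter (((i : ℤ) + 2) ≤ ·)).card
  set cY := ((Ys x k).filter (((i : ℤ) + 2) ≤ ·)).card
  have h2 : ((cZ : ℝ) - 1) * ((h : ℝ) * g - 1) ≤ ((cY : ℝ) - 1) * ((h : ℝ) + g - 2) := by
    exact_mod_cast h1
  have h3 : (cZ : ℝ) ≤ 1 + beta h g * (cY - 1) := by
    have h4 := hg_pos hh hg
    have h5 : (cZ : ℝ) - 1 ≤ ((cY : ℝ) - 1) * ((h : ℝ) + g - 2) / ((h : ℝ) * g - 1) := by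
      rw [le_div_iff₀ h4]; exact h2
    have h6 : ((cY : ℝ) - 1) * ((h : ℝ) + g - 2) / ((h : ℝ) * g - 1) = beta h g * (cY - 1) := by
      unfold beta; ring
    linarith
  calc ell i * (cZ : ℝ) ≤ ell i * (1 + beta h g * (cY - 1)) :=
        mul_le_mul_of_nonneg_left h3 (ell_nonneg i)
    _ = ell i + beta h g * (ell i * cY - ell i) := by ring

/-- the weight inequality in the product form -/
theorem weight_prod (hh : 2 ≤ h) (hg : 2 ≤ g) {x : Fin h → ℤ} {k : Fin g → ℤ}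
    (hx : Function.Injective x) (hk : Function.Injective k) (m : ℤ) (hm : m ∈ Ys x k)
    (hmax : ∀ y ∈ Ys x k, y ≤ m) (hpos : ∀ y ∈ Ys x k, 1 ≤ y) :
    ∏ y ∈ Ys x k, (y : ℝ) ^ (-beta h g) ≤
      (m : ℝ) ^ (1 - beta h g) * ∏ z ∈ Zs x k, ((z : ℝ))⁻¹ := by
  have h0 := weight_ineq hh hg hx hk m hm hmax hpos
  have hm1 : (0 : ℝ) < m := by
    have := hpos m hm
    exact_mod_cast (by omega : 0 < m)
  have hY : ∀ y ∈ Ys x k, (0 : ℝ) < y := fun y hy => by
    have := hpos y hy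
    exact_mod_cast (by omega : 0 < y)
  have e1 : ∏ y ∈ Ys x k, (y : ℝ) ^ (-beta h g) = Real.exp (-beta h g * ∑ y ∈ Ys x k, Real.log y) := by
    rw [Finset.mul_sum, Real.exp_sum]
    apply Finset.prod_congr rfl
    intro y hy
    rw [Real.rpow_def_of_pos (hY y hy), mul_comm]
  have e2 : ∏ z ∈ Zs x k, ((z : ℝ))⁻¹ = Real.exp (-∑ z ∈ Zs x k, Real.log z) := by
    rw [← Finset.sum_neg_distrib, Real.exp_sum]
    apply Finset.prod_congr rfl
    intro z hz
    rw [Real.exp_neg, Real.exp_log (hY z (Zs_subset x k hz))]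
  rw [e1, e2, Real.rpow_def_of_pos hm1, ← Real.exp_add, Real.exp_le_exp]
  nlinarith [h0]

end Pool.Agent.Q153.CHG
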