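import Mathlib
import Pool.Agent.Q153.CHG.Layer

/-!
# The sum of the weights of the configurations in an interval
-/

set_option autoImplicit false

namespace Pool.Agent.Q153.CHG

open Finset

/-- `Y` is a sumset `X + K` with `|X| = h`, `|K| = g` -/
def IsConf (h g : ℕ) (Y : Finset ℤ) : Prop :=
  ∃ (x : Fin h → ℤ) (k : Fin g → ℤ), Function.Injective x ∧ Function.Injective k ∧ Ys x k = Y

variable {h g : ℕ}

/-- the number of the order types -/
noncomputable def T (h g : ℕ) : ℝ :=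
  (Fintype.card (Set ((Fin h × Fin g) × (Fin h × Fin g))) : ℝ)

lemma T_nonneg (h g : ℕ) : 0 ≤ T h g := by unfold T; positivity

/-- the code of a configuration -/
noncomputable def code (x : Fin h → ℤ) (k : Fin g → ℤ) :
    Set ((Fin h × Fin g) × (Fin h × Fin g)) × (Fin h × Fin g → ℤ) := by
  classical
  exact ({pq | sm x k pq.1 ≤ sm x k pq.2}, fun p => if CF (sm x k) p then sm x k p else 1)

lemma code_inj {x x' : Fin h → ℤ} {k k' : Fin g → ℤ} (hc : code x k = code x' k') :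
    Ys x k = Ys x' k' := by
  classical
  have h1 : ∀ p q, sm x k p ≤ sm x k q ↔ sm x' k' p ≤ sm x' k' q := by
    intro p q
    have := congrArg Prod.fst hc
    have h2 : (p, q) ∈ (code x k).1 ↔ (p, q) ∈ (code x' k').1 := by rw [this]
    exact h2
  have h2 := determined h1 (by
    intro p hp
    have h3 := congrFun (congrArg Prod.snd hc) p
    have h4 : (if CF (sm x k) p then sm x k p else 1) =
        (if CF (sm x' k') p then sm x' k' p else 1) := h3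
    rw [if_pos hp, if_pos ((CF_congr h1 p).1 hp)] at h4
    exact h4)
  unfold Ys
  rw [h2]

lemma code_prod {x : Fin h → ℤ} {k : Fin g → ℤ} (hk : Function.Injective k) :
    ∏ p, (((code x k).2 p : ℤ) : ℝ)⁻¹ = ∏ z ∈ Zs x k, ((z : ℝ))⁻¹ := by
  classical
  unfold Zs
  rw [Finset.prod_image (by
    intro p hp q hq hpq
    exact sm_injOn hk (Finset.mem_filter.1 hp).2 (Finset.mem_filter.1 hq).2 hpq),
    Finset.prod_filter]
  apply Finset.prod_congr rfl
  intro p _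
  have : (code x k).2 p = if CF (sm x k) p then sm x k p else 1 := rfl
  rw [this]
  split_ifs <;> simp

open Classical in
/-- the sum of `∏ 1 / z` -/
theorem sum_confs (N : ℤ) (hN : 1 ≤ N) (𝒞 : Finset (Finset ℤ)) (X : Finset ℤ → Fin h → ℤ)
    (K : Finset ℤ → Fin g → ℤ) (hX : ∀ Y ∈ 𝒞, Function.Injective (X Y))
    (hK : ∀ Y ∈ 𝒞, Function.Injective (K Y)) (hY : ∀ Y ∈ 𝒞, Ys (X Y) (K Y) = Y)
    (hsub : ∀ Y ∈ 𝒞, ∀ y ∈ Y, 1 ≤ y ∧ y ≤ N) :
    ∑ Y ∈ 𝒞, ∏ z ∈ Zs (X Y) (K Y), ((z : ℝ))⁻¹ ≤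
      T h g * (∑ t ∈ Icc (1 : ℤ) N, ((t : ℝ))⁻¹) ^ (h * g) := by
  have h1 : ∑ Y ∈ 𝒞, ∏ z ∈ Zs (X Y) (K Y), ((z : ℝ))⁻¹ =
      ∑ Y ∈ 𝒞, ∏ p, (((code (X Y) (K Y)).2 p : ℤ) : ℝ)⁻¹ :=
    Finset.sum_congr rfl (fun Y hY' => (code_prod (hK Y hY')).symm)
  rw [h1]
  have hinj : Set.InjOn (fun Y => code (X Y) (K Y)) (𝒞 : Set (Finset ℤ)) := by
    intro Y hY1 Y' hY2 hc
    rw [← hY Y hY1, ← hY Y' hY2]
    exact code_inj hc
  rw [← Finset.sum_image (f := fun c : Set ((Fin h × Fin g) × (Fin h × Fin g)) ×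
    (Fin h × Fin g → ℤ) => ∏ p, ((c.2 p : ℤ) : ℝ)⁻¹) (g := fun Y => code (X Y) (K Y)) hinj]
  have hsub' : 𝒞.image (fun Y => code (X Y) (K Y)) ⊆
      (univ : Finset (Set ((Fin h × Fin g) × (Fin h × Fin g)))) ×ˢ
        Fintype.piFinset (fun _ : Fin h × Fin g => Icc (1 : ℤ) N) := by
    intro c hc
    obtain ⟨Y, hY1, rfl⟩ := Finset.mem_image.1 hc
    rw [Finset.mem_product]
    refine ⟨Finset.mem_univ _, ?_⟩
    rw [Fintype.mem_piFinset]
    intro p
    have : (code (X Y) (K Y)).2 p = if CF (sm (X Y) (K Y)) p then sm (X Y) (K Y) p else 1 := rfl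
    have hmem : sm (X Y) (K Y) p ∈ Ys (X Y) (K Y) :=
      Finset.mem_image_of_mem (sm (X Y) (K Y)) (Finset.mem_univ p)
    rw [hY Y hY1] at hmem
    rw [this, Finset.mem_Icc]
    split_ifs
    · exact hsub Y hY1 _ hmem
    · exact ⟨le_refl _, hN⟩
  refine (Finset.sum_le_sum_of_subset_of_nonneg hsub' ?_).trans ?_
  · intro c hc _
    rw [Finset.mem_product, Fintype.mem_piFinset] at hc
    apply Finset.prod_nonneg
    intro p _
    have := (Finset.mem_Icc.1 (hc.2 p)).1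
    have : (0 : ℝ) ≤ ((c.2 p : ℤ) : ℝ) := by exact_mod_cast (by omega : 0 ≤ c.2 p)
    positivity
  · rw [Finset.sum_product]
    simp only
    have hps := Finset.prod_univ_sum (ι := Fin h × Fin g) (κ := fun _ => ℤ) (R := ℝ)
      (fun _ => Icc (1 : ℤ) N) (fun _ t => ((t : ℝ))⁻¹)
    rw [Finset.sum_const, ← hps]
    rw [Finset.prod_const, Finset.card_univ, Finset.card_univ, Fintype.card_prod, Fintype.card_fin,
      Fintype.card_fin, nsmul_eq_mul]
    rfl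

/-- the dyadic blocks -/
noncomputable def B (k : ℕ) : Finset ℤ := Ico (2 ^ k) (2 ^ (k + 1))

lemma card_B (k : ℕ) : (B k).card = 2 ^ k := by
  unfold B
  rw [Int.card_Ico]
  have : (2 : ℤ) ^ (k + 1) - 2 ^ k = ((2 ^ k : ℕ) : ℤ) := by push_cast; ring
  rw [this, Int.toNat_natCast]

lemma harmonic_bound (k : ℕ) :
    ∑ t ∈ Icc (1 : ℤ) (2 ^ (k + 1) - 1), ((t : ℝ))⁻¹ ≤ k + 1 := by
  induction k with
  | zero => simp
  | succ k ih =>
    have hun : Icc (1 : ℤ) (2 ^ (k + 1 + 1) - 1) = Icc (1 : ℤ) (2 ^ (k + 1) - 1) ∪ B (k + 1) := by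
      ext t
      simp only [B, Finset.mem_Icc, Finset.mem_union, Finset.mem_Ico]
      have h1 : (1 : ℤ) ≤ 2 ^ (k + 1) := one_le_pow₀ (by norm_num)
      have h2 : (2 : ℤ) ^ (k + 1 + 1) = 2 * 2 ^ (k + 1) := by ring
      omega
    have hdis : Disjoint (Icc (1 : ℤ) (2 ^ (k + 1) - 1)) (B (k + 1)) := by
      rw [Finset.disjoint_left]
      intro t ht ht'
      simp only [B, Finset.mem_Icc, Finset.mem_Ico] at ht ht'
      omega
    rw [hun, Finset.sum_union hdis]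
    have hb : ∑ t ∈ B (k + 1), ((t : ℝ))⁻¹ ≤ 1 := by
      calc ∑ t ∈ B (k + 1), ((t : ℝ))⁻¹ ≤ ∑ t ∈ B (k + 1), ((2 : ℝ) ^ (k + 1))⁻¹ := by
            apply Finset.sum_le_sum
            intro t ht
            apply inv_anti₀ (by positivity)
            simp only [B, Finset.mem_Ico] at ht
            exact_mod_cast ht.1
        _ = 1 := by
            rw [Finset.sum_const, card_B, nsmul_eq_mul]
            push_cast
            exact mul_inv_cancel₀ (by positivity)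
    push_cast
    linarith

open Classical in
/-- the configurations in `[1, 2 ^ (k + 1))` which meet `[2 ^ k, 2 ^ (k + 1))` -/
noncomputable def Cf (h g k : ℕ) : Finset (Finset ℤ) :=
  (Ico (1 : ℤ) (2 ^ (k + 1))).powerset.filter (fun Y => IsConf h g Y ∧ ∃ m ∈ Y, 2 ^ k ≤ m)

lemma mem_Cf {k : ℕ} {Y : Finset ℤ} : Y ∈ Cf h g k ↔
    (∀ y ∈ Y, 1 ≤ y ∧ y < 2 ^ (k + 1)) ∧ IsConf h g Y ∧ ∃ m ∈ Y, 2 ^ k ≤ m := by
  classical
  unfold Cf
  rw [Finset.mem_filter, Finset.mem_powerset]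
  constructor
  · rintro ⟨h1, h2⟩
    exact ⟨fun y hy => Finset.mem_Ico.1 (h1 hy), h2⟩
  · rintro ⟨h1, h2⟩
    exact ⟨fun y hy => Finset.mem_Ico.2 (h1 y hy), h2⟩

/-- a second large element -/
lemma second (hh : 2 ≤ h) (hg : 2 ≤ g) {x : Fin h → ℤ} {k : Fin g → ℤ}
    (hx : Function.Injective x) (hk : Function.Injective k) (hpos : ∀ y ∈ Ys x k, 1 ≤ y)
    (m : ℤ) (hm : m ∈ Ys x k) : ∃ m' ∈ Ys x k, m' ≠ m ∧ m ≤ 2 * m' := by
  obtain ⟨p, -, rfl⟩ := Finset.mem_image.1 hm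
  have : Nontrivial (Fin h) := Fin.nontrivial_iff_two_le.2 hh
  have : Nontrivial (Fin g) := Fin.nontrivial_iff_two_le.2 hg
  obtain ⟨i, hi⟩ := exists_ne p.1
  obtain ⟨j, hj⟩ := exists_ne p.2
  have hmem : ∀ q : Fin h × Fin g, sm x k q ∈ Ys x k := fun q =>
    Finset.mem_image_of_mem _ (Finset.mem_univ q)
  have h1 : sm x k (i, p.2) ≠ sm x k p := by
    intro h'
    apply hi
    apply hx
    have : x i + k p.2 = x p.1 + k p.2 := h'
    linarith
  have h2 : sm x k (p.1, j) ≠ sm x k p := by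
    intro h'
    apply hj
    apply hk
    have : x p.1 + k j = x p.1 + k p.2 := h'
    linarith
  have h3 : sm x k (i, p.2) + sm x k (p.1, j) = sm x k p + sm x k (i, j) := by
    simp only [sm]; ring
  have h4 := hpos _ (hmem (i, j))
  rcases le_or_gt (sm x k p) (2 * sm x k (i, p.2)) with h5 | h5
  · exact ⟨_, hmem _, h1, h5⟩
  · exact ⟨_, hmem _, h2, by linarith⟩

/-- the expected number of the configurations in a block, for a weight `pr` -/
theorem sum_pr (hh : 2 ≤ h) (hg : 2 ≤ g) (pr : ℤ → ℝ) (q : ℕ → ℝ) (hq0 : ∀ i, 0 ≤ q i)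
    (hq1 : ∀ i, q i ≤ 1) (hp0 : ∀ y, 0 ≤ pr y)
    (hpr : ∀ (y : ℤ) (i : ℕ), 2 ^ i ≤ y → pr y ≤ (y : ℝ) ^ (-beta h g) * q i) (k : ℕ) :
    ∑ Y ∈ Cf h g (k + 1), ∏ y ∈ Y, pr y ≤
      q (k + 1) * q k * ((2 : ℝ) ^ (k + 2)) ^ (1 - beta h g) * (T h g * ((k : ℝ) + 2) ^ (h * g)) := by
  classical
  have hchoose : ∀ Y : Finset ℤ, ∃ (x : Fin h → ℤ) (κ : Fin g → ℤ), Y ∈ Cf h g (k + 1) →
      Function.Injective x ∧ Function.Injective κ ∧ Ys x κ = Y := by
    intro Y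
    by_cases hY : Y ∈ Cf h g (k + 1)
    · obtain ⟨x, κ, h1, h2, h3⟩ := (mem_Cf.1 hY).2.1
      exact ⟨x, κ, fun _ => ⟨h1, h2, h3⟩⟩
    · exact ⟨fun _ => 0, fun _ => 0, fun h' => absurd h' hY⟩
  choose X K hXK using hchoose
  -- the bound for one configuration
  have hone : ∀ Y ∈ Cf h g (k + 1), ∏ y ∈ Y, pr y ≤
      q (k + 1) * q k * ((2 : ℝ) ^ (k + 2)) ^ (1 - beta h g) * ∏ z ∈ Zs (X Y) (K Y), ((z : ℝ))⁻¹ := by
    intro Y hY
    obtain ⟨hx, hκ, hYs⟩ := hXK Y hY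
    obtain ⟨hsub, -, m₀, hm₀, hm₀k⟩ := mem_Cf.1 hY
    have hYne : Y.Nonempty := ⟨m₀, hm₀⟩
    set m := Y.max' hYne with hm
    have hmY : m ∈ Y := Y.max'_mem hYne
    have hmax : ∀ y ∈ Y, y ≤ m := fun y hy => Y.le_max' y hy
    have hpos : ∀ y ∈ Y, 1 ≤ y := fun y hy => (hsub y hy).1
    have hposR : ∀ y ∈ Y, (0 : ℝ) < y := fun y hy => by
      have := hpos y hy
      exact_mod_cast (by omega : 0 < y)
    have hmk : 2 ^ (k + 1) ≤ m := hm₀k.trans (hmax m₀ hm₀)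
    obtain ⟨m', hm'Y, hm'ne, hm'2⟩ := second hh hg hx hκ (by rwa [hYs]) m (by rwa [hYs])
    rw [hYs] at hm'Y
    have hm'k : 2 ^ k ≤ m' := by
      have : (2 : ℤ) ^ (k + 1) = 2 * 2 ^ k := by ring
      omega
    -- the quotients
    have hone' : ∀ y ∈ Y, pr y ≤ (y : ℝ) ^ (-beta h g) * 1 := by
      intro y hy
      have h1 := hpr y 0 (by simpa using hpos y hy)
      exact h1.trans (mul_le_mul_of_nonneg_left (hq1 0) (Real.rpow_nonneg (hposR y hy).le _))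
    have hprod : ∏ y ∈ Y, pr y ≤ q (k + 1) * q k * ∏ y ∈ Y, (y : ℝ) ^ (-beta h g) := by
      have hm'e : m' ∈ Y.erase m := Finset.mem_erase.2 ⟨hm'ne, hm'Y⟩
      rw [← Finset.mul_prod_erase Y _ hmY, ← Finset.mul_prod_erase Y (fun y : ℤ => (y : ℝ) ^ (-beta h g)) hmY,
        ← Finset.mul_prod_erase (Y.erase m) _ hm'e,
        ← Finset.mul_prod_erase (Y.erase m) (fun y : ℤ => (y : ℝ) ^ (-beta h g)) hm'e]
      have a1 := hpr m (k + 1) hmk
      have a2 := hpr m' k hm'k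
      have a3 : ∏ y ∈ (Y.erase m).erase m', pr y ≤
          ∏ y ∈ (Y.erase m).erase m', (y : ℝ) ^ (-beta h g) := by
        apply Finset.prod_le_prod (fun y _ => hp0 y)
        intro y hy
        have := hone' y (Finset.mem_of_mem_erase (Finset.mem_of_mem_erase hy))
        linarith
      have b1 : 0 ≤ (m : ℝ) ^ (-beta h g) := Real.rpow_nonneg (hposR m hmY).le _
      have b2 : 0 ≤ (m' : ℝ) ^ (-beta h g) := Real.rpow_nonneg (hposR m' hm'Y).le _
      have b3 : 0 ≤ ∏ y ∈ (Y.erase m).erase m', pr y := Finset.prod_nonneg (fun y _ => hp0 y)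
      have b4 : 0 ≤ ∏ y ∈ (Y.erase m).erase m', (y : ℝ) ^ (-beta h g) := b3.trans a3
      calc pr m * (pr m' * ∏ y ∈ (Y.erase m).erase m', pr y)
          ≤ ((m : ℝ) ^ (-beta h g) * q (k + 1)) * (((m' : ℝ) ^ (-beta h g) * q k) *
            ∏ y ∈ (Y.erase m).erase m', (y : ℝ) ^ (-beta h g)) := by
            apply mul_le_mul a1 _ (mul_nonneg (hp0 _) b3) (mul_nonneg b1 (hq0 _))
            exact mul_le_mul a2 a3 b3 (mul_nonneg b2 (hq0 _))
        _ = _ := by ring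
    have hwt := weight_prod hh hg hx hκ m (by rwa [hYs]) (by rwa [hYs]) (by rwa [hYs])
    rw [hYs] at hwt
    have hm2 : (m : ℝ) ^ (1 - beta h g) ≤ ((2 : ℝ) ^ (k + 2)) ^ (1 - beta h g) := by
      apply Real.rpow_le_rpow (hposR m hmY).le
      · have := (hsub m hmY).2
        have h3 : (m : ℝ) < (2 : ℝ) ^ (k + 1 + 1) := by exact_mod_cast this
        exact h3.le
      · linarith [beta_lt_one hh hg]
    have hZ : 0 ≤ ∏ z ∈ Zs (X Y) (K Y), ((z : ℝ))⁻¹ := by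
      apply Finset.prod_nonneg
      intro z hz
      have := hposR z (by rw [← hYs]; exact Zs_subset _ _ hz)
      positivity
    calc ∏ y ∈ Y, pr y ≤ q (k + 1) * q k * ∏ y ∈ Y, (y : ℝ) ^ (-beta h g) := hprod
      _ ≤ q (k + 1) * q k * (((2 : ℝ) ^ (k + 2)) ^ (1 - beta h g) *
            ∏ z ∈ Zs (X Y) (K Y), ((z : ℝ))⁻¹) := by
          apply mul_le_mul_of_nonneg_left _ (mul_nonneg (hq0 _) (hq0 _))
          exact hwt.trans (mul_le_mul_of_nonneg_right hm2 hZ)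
      _ = _ := by ring
  refine (Finset.sum_le_sum hone).trans ?_
  rw [← Finset.mul_sum]
  apply mul_le_mul_of_nonneg_left _
    (mul_nonneg (mul_nonneg (hq0 _) (hq0 _)) (Real.rpow_nonneg (by positivity) _))
  have h2 : (1 : ℤ) ≤ 2 ^ (k + 1 + 1) - 1 := by
    have : (2 : ℤ) ≤ 2 ^ (k + 1 + 1) := by
      calc (2 : ℤ) = 2 ^ 1 := by norm_num
        _ ≤ 2 ^ (k + 1 + 1) := pow_le_pow_right₀ (by norm_num) (by omega)
    omega
  have h3 := sum_confs (2 ^ (k + 1 + 1) - 1) h2 (Cf h g (k + 1)) X K (fun Y hY => (hXK Y hY).1)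
    (fun Y hY => (hXK Y hY).2.1) (fun Y hY => (hXK Y hY).2.2) (fun Y hY y hy => by
      have := (mem_Cf.1 hY).1 y hy
      omega)
  refine h3.trans (mul_le_mul_of_nonneg_left ?_ (T_nonneg h g))
  apply pow_le_pow_left₀
  · apply Finset.sum_nonneg
    intro t ht
    have := (Finset.mem_Icc.1 ht).1
    have : (0 : ℝ) ≤ (t : ℝ) := by exact_mod_cast (by omega : 0 ≤ t)
    positivity
  · have := harmonic_bound (k + 1)
    push_cast at this
    linarith

end Pool.Agent.Q153.CHG
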