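import Mathlib

/-!
# Random subsets of a finite set
-/

set_option autoImplicit false

namespace Pool.Agent.Q153.CHG

open Finset

/-- the probability of the subset `R` of `Ω` -/
noncomputable def mu (Ω : Finset ℤ) (p : ℤ → ℝ) (R : Finset ℤ) : ℝ :=
  (∏ a ∈ R, p a) * ∏ a ∈ Ω \ R, (1 - p a)

variable {Ω : Finset ℤ} {p : ℤ → ℝ}

lemma mu_nonneg (h0 : ∀ a, 0 ≤ p a) (h1 : ∀ a, p a ≤ 1) (R : Finset ℤ) : 0 ≤ mu Ω p R :=
  mul_nonneg (Finset.prod_nonneg (fun a _ => h0 a))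
    (Finset.prod_nonneg (fun a _ => by linarith [h1 a]))

lemma sum_mu : ∑ R ∈ Ω.powerset, mu Ω p R = 1 := by
  have h := Finset.prod_add p (fun a => 1 - p a) Ω
  unfold mu
  rw [← h]
  simp

lemma sum_mu_sup {S : Finset ℤ} (hS : S ⊆ Ω) :
    ∑ R ∈ Ω.powerset, mu Ω p R * (if S ⊆ R then 1 else 0) = ∏ a ∈ S, p a := by
  have h := Finset.prod_add p (fun a => if a ∈ S then 0 else 1 - p a) Ω
  have h1 : ∏ a ∈ Ω, (p a + if a ∈ S then 0 else 1 - p a) = ∏ a ∈ S, p a := by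
    rw [← Finset.prod_subset hS]
    · apply Finset.prod_congr rfl
      intro a ha
      rw [if_pos ha, add_zero]
    · intro a _ ha
      rw [if_neg ha]; ring
  rw [← h1, h]
  apply Finset.sum_congr rfl
  intro R hR
  rw [Finset.mem_powerset] at hR
  unfold mu
  by_cases hSR : S ⊆ R
  · rw [if_pos hSR, mul_one]
    congr 1
    apply Finset.prod_congr rfl
    intro a ha
    rw [if_neg (fun h' => (Finset.mem_sdiff.1 ha).2 (hSR h'))]
  · rw [if_neg hSR, mul_zero]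
    obtain ⟨a, haS, haR⟩ := Finset.not_subset.1 hSR
    rw [Finset.prod_eq_zero (i := a) (Finset.mem_sdiff.2 ⟨hS haS, haR⟩) (by rw [if_pos haS]),
      mul_zero]

lemma sum_mu_sup_le (h0 : ∀ a, 0 ≤ p a) (S : Finset ℤ) :
    ∑ R ∈ Ω.powerset, mu Ω p R * (if S ⊆ R then 1 else 0) ≤ ∏ a ∈ S, p a := by
  by_cases hS : S ⊆ Ω
  · exact (sum_mu_sup hS).le
  · rw [Finset.sum_eq_zero]
    · exact Finset.prod_nonneg (fun a _ => h0 a)
    · intro R hR
      rw [Finset.mem_powerset] at hR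
      rw [if_neg (fun h => hS (h.trans hR)), mul_zero]

/-- the expected number of the members of `𝒞` inside of the random set -/
lemma exp_count (h0 : ∀ a, 0 ≤ p a) (𝒞 : Finset (Finset ℤ)) :
    ∑ R ∈ Ω.powerset, mu Ω p R * ((𝒞.filter (· ⊆ R)).card : ℝ) ≤ ∑ Y ∈ 𝒞, ∏ y ∈ Y, p y := by
  have h1 : ∀ R : Finset ℤ, ((𝒞.filter (· ⊆ R)).card : ℝ) =
      ∑ Y ∈ 𝒞, (if Y ⊆ R then (1 : ℝ) else 0) := by
    intro R
    rw [Finset.sum_boole]
  simp only [h1, Finset.mul_sum]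
  rw [Finset.sum_comm]
  exact Finset.sum_le_sum (fun Y _ => sum_mu_sup_le h0 Y)

/-- the variance of the size of the random set in a block -/
lemma exp_var (h0 : ∀ a, 0 ≤ p a) {B : Finset ℤ} (hB : B ⊆ Ω) :
    ∑ R ∈ Ω.powerset, mu Ω p R * (((B ∩ R).card : ℝ) - ∑ a ∈ B, p a) ^ 2 ≤ ∑ a ∈ B, p a := by
  set e := ∑ a ∈ B, p a with he
  have hcard : ∀ R : Finset ℤ, ((B ∩ R).card : ℝ) = ∑ a ∈ B, (if ({a} : Finset ℤ) ⊆ R then (1 : ℝ) else 0) := by
    intro R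
    rw [Finset.sum_boole]
    congr 2
    ext a
    simp
  have hsq : ∀ R : Finset ℤ, ((B ∩ R).card : ℝ) ^ 2 =
      ∑ a ∈ B, ∑ b ∈ B, (if ({a, b} : Finset ℤ) ⊆ R then (1 : ℝ) else 0) := by
    intro R
    rw [hcard, sq, Finset.sum_mul_sum]
    apply Finset.sum_congr rfl
    intro a _
    apply Finset.sum_congr rfl
    intro b _
    simp only [Finset.singleton_subset_iff, Finset.insert_subset_iff]
    by_cases ha : a ∈ R <;> by_cases hb : b ∈ R <;> simp [ha, hb]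
  have hE1 : ∑ R ∈ Ω.powerset, mu Ω p R * ((B ∩ R).card : ℝ) = e := by
    simp only [hcard, Finset.mul_sum]
    rw [Finset.sum_comm, he]
    apply Finset.sum_congr rfl
    intro a ha
    rw [sum_mu_sup (Finset.singleton_subset_iff.2 (hB ha)), Finset.prod_singleton]
  have hE2 : ∑ R ∈ Ω.powerset, mu Ω p R * ((B ∩ R).card : ℝ) ^ 2 ≤ e + e * e := by
    simp only [hsq, Finset.mul_sum]
    rw [Finset.sum_comm]
    have h2 : ∀ a ∈ B, ∑ R ∈ Ω.powerset, ∑ b ∈ B, mu Ω p R * (if ({a, b} : Finset ℤ) ⊆ R then (1 : ℝ) else 0) ≤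
        p a + p a * e := by
      intro a ha
      rw [Finset.sum_comm]
      have h3 : ∀ b ∈ B, ∑ R ∈ Ω.powerset, mu Ω p R * (if ({a, b} : Finset ℤ) ⊆ R then (1 : ℝ) else 0) ≤
          (if b = a then p a else 0) + p a * p b := by
        intro b hb
        have hsub : ({a, b} : Finset ℤ) ⊆ Ω := by
          rw [Finset.insert_subset_iff, Finset.singleton_subset_iff]
          exact ⟨hB ha, hB hb⟩
        rw [sum_mu_sup hsub]
        by_cases hab : b = a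
        · subst hab
          have : 0 ≤ p b * p b := mul_nonneg (h0 b) (h0 b)
          simp only [Finset.pair_eq_singleton, Finset.prod_singleton, if_pos]
          linarith
        · rw [Finset.prod_pair (fun h' => hab h'.symm), if_neg hab, zero_add]
      refine (Finset.sum_le_sum h3).trans ?_
      rw [Finset.sum_add_distrib, ← Finset.mul_sum, Finset.sum_ite_eq' B a, if_pos ha]
    refine (Finset.sum_le_sum h2).trans ?_
    rw [Finset.sum_add_distrib, ← Finset.sum_mul]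
  have hexp : ∑ R ∈ Ω.powerset, mu Ω p R * (((B ∩ R).card : ℝ) - e) ^ 2 =
      ∑ R ∈ Ω.powerset, mu Ω p R * ((B ∩ R).card : ℝ) ^ 2 -
        2 * e * ∑ R ∈ Ω.powerset, mu Ω p R * ((B ∩ R).card : ℝ) +
        e ^ 2 * ∑ R ∈ Ω.powerset, mu Ω p R := by
    clear_value e
    rw [Finset.mul_sum, Finset.mul_sum, ← Finset.sum_sub_distrib, ← Finset.sum_add_distrib]
    apply Finset.sum_congr rfl
    intro R _
    ring
  rw [hexp, hE1, sum_mu]
  nlinarith [hE2]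

/-- the selection -/
theorem exists_set (h0 : ∀ a, 0 ≤ p a) (h1 : ∀ a, p a ≤ 1) (I : Finset ℕ) (B : ℕ → Finset ℤ)
    (hB : ∀ k ∈ I, B k ⊆ Ω) (𝒞 : ℕ → Finset (Finset ℤ)) (E : ℕ → ℝ)
    (hE : ∀ k ∈ I, E k = ∑ a ∈ B k, p a) (hEpos : ∀ k ∈ I, 0 < E k)
    (hsum : ∑ k ∈ I, (4 / E k * ∑ Y ∈ 𝒞 k, ∏ y ∈ Y, p y + 4 / E k) < 1) :
    ∃ R ⊆ Ω, ∀ k ∈ I, ((𝒞 k).filter (· ⊆ R)).card ≤ E k / 4 ∧ E k / 2 ≤ ((B k ∩ R).card : ℝ) := by
  by_contra hcon
  push Not at hcon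
  set F : Finset ℤ → ℝ := fun R => ∑ k ∈ I, (4 / E k * (((𝒞 k).filter (· ⊆ R)).card : ℝ) +
    4 / (E k) ^ 2 * (((B k ∩ R).card : ℝ) - E k) ^ 2) with hF
  have hF1 : ∀ R ∈ Ω.powerset, 1 ≤ F R := by
    intro R hR
    obtain ⟨k, hk, hfail⟩ := hcon R (Finset.mem_powerset.1 hR)
    have hEk := hEpos k hk
    have hnn : ∀ j ∈ I, 0 ≤ 4 / E j * (((𝒞 j).filter (· ⊆ R)).card : ℝ) +
        4 / (E j) ^ 2 * (((B j ∩ R).card : ℝ) - E j) ^ 2 := by
      intro j hj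
      have := hEpos j hj
      positivity
    refine le_trans ?_ (Finset.single_le_sum hnn hk)
    by_cases hb : (((𝒞 k).filter (· ⊆ R)).card : ℝ) ≤ E k / 4
    · have hs := hfail hb
      have h3 : (E k / 2) ^ 2 ≤ (((B k ∩ R).card : ℝ) - E k) ^ 2 := by
        have : 0 ≤ ((B k ∩ R).card : ℝ) := by positivity
        nlinarith
      have h4 : 1 = 4 / (E k) ^ 2 * (E k / 2) ^ 2 := by
        field_simp; norm_num
      have h5 : 0 ≤ 4 / E k * (((𝒞 k).filter (· ⊆ R)).card : ℝ) := by positivity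
      calc (1 : ℝ) = 4 / (E k) ^ 2 * (E k / 2) ^ 2 := h4
        _ ≤ 4 / (E k) ^ 2 * (((B k ∩ R).card : ℝ) - E k) ^ 2 :=
          mul_le_mul_of_nonneg_left h3 (by positivity)
        _ ≤ _ := by linarith
    · push Not at hb
      have h4 : 1 = 4 / E k * (E k / 4) := by
        field_simp
      have h5 : 0 ≤ 4 / (E k) ^ 2 * (((B k ∩ R).card : ℝ) - E k) ^ 2 := by positivity
      calc (1 : ℝ) = 4 / E k * (E k / 4) := h4
        _ ≤ 4 / E k * (((𝒞 k).filter (· ⊆ R)).card : ℝ) :=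
          mul_le_mul_of_nonneg_left hb.le (by positivity)
        _ ≤ _ := by linarith
  have hlow : 1 ≤ ∑ R ∈ Ω.powerset, mu Ω p R * F R := by
    calc (1 : ℝ) = ∑ R ∈ Ω.powerset, mu Ω p R * 1 := by simp [sum_mu]
      _ ≤ _ := Finset.sum_le_sum (fun R hR =>
          mul_le_mul_of_nonneg_left (hF1 R hR) (mu_nonneg h0 h1 R))
  have hup : ∑ R ∈ Ω.powerset, mu Ω p R * F R ≤
      ∑ k ∈ I, (4 / E k * ∑ Y ∈ 𝒞 k, ∏ y ∈ Y, p y + 4 / E k) := by
    simp only [hF, Finset.mul_sum]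
    rw [Finset.sum_comm]
    apply Finset.sum_le_sum
    intro k hk
    have hEk := hEpos k hk
    have e1 : ∑ R ∈ Ω.powerset, mu Ω p R * (4 / E k * (((𝒞 k).filter (· ⊆ R)).card : ℝ) +
        4 / (E k) ^ 2 * (((B k ∩ R).card : ℝ) - E k) ^ 2) =
        4 / E k * ∑ R ∈ Ω.powerset, mu Ω p R * (((𝒞 k).filter (· ⊆ R)).card : ℝ) +
        4 / (E k) ^ 2 * ∑ R ∈ Ω.powerset, mu Ω p R * (((B k ∩ R).card : ℝ) - E k) ^ 2 := by
      rw [Finset.mul_sum, Finset.mul_sum, ← Finset.sum_add_distrib]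
      apply Finset.sum_congr rfl
      intro R _
      ring
    rw [e1]
    have h2 := exp_count (Ω := Ω) h0 (𝒞 k)
    have h3 := exp_var h0 (hB k hk)
    rw [← hE k hk] at h3
    have h4 : 4 / (E k) ^ 2 * ∑ R ∈ Ω.powerset, mu Ω p R * (((B k ∩ R).card : ℝ) - E k) ^ 2 ≤
        4 / E k := by
      calc _ ≤ 4 / (E k) ^ 2 * E k := mul_le_mul_of_nonneg_left h3 (by positivity)
        _ = 4 / E k := by field_simp
    have h5 : 4 / E k * ∑ R ∈ Ω.powerset, mu Ω p R * (((𝒞 k).filter (· ⊆ R)).card : ℝ) ≤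
        4 / E k * ∑ Y ∈ 𝒞 k, ∏ y ∈ Y, p y := mul_le_mul_of_nonneg_left h2 (by positivity)
    rw [← Finset.mul_sum]
    linarith
  linarith

end Pool.Agent.Q153.CHG
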