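import Mathlib
import Pool.Agent.Q153.CHG.Count
import Pool.Agent.Q153.CHG.Prob

/-!
# Dense infinite sequences without sumsets `X + K`, `|X| = h`, `|K| = g`
-/

set_option autoImplicit false

namespace Pool.Agent.Q153.CHG

open Finset Filter

variable (h g : ℕ)

/-- `2 ^ (-β)` -/
noncomputable def bb : ℝ := (2 : ℝ) ^ (-beta h g)

noncomputable def qq (i : ℕ) : ℝ := 1 / ((i : ℝ) + 1) ^ (h * g + 2)

noncomputable def PP (j : ℕ) : ℝ := bb h g ^ (j + 1) * qq h g j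

noncomputable def EE (k : ℕ) : ℝ := 2 ^ k * PP h g k

noncomputable def pr (k₀ : ℕ) (y : ℤ) : ℝ :=
  if 2 ^ k₀ ≤ y then PP h g (Nat.log 2 y.toNat) else 0

variable {h g}

lemma bb_pos : 0 < bb h g := Real.rpow_pos_of_pos (by norm_num) _

lemma bb_le_one (hh : 2 ≤ h) (hg : 2 ≤ g) : bb h g ≤ 1 := by
  unfold bb
  apply Real.rpow_le_one_of_one_le_of_nonpos (by norm_num)
  linarith [beta_pos hh hg]

lemma qq_pos (i : ℕ) : 0 < qq h g i := by unfold qq; positivity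

lemma qq_le_one (i : ℕ) : qq h g i ≤ 1 := by
  unfold qq
  rw [div_le_one (by positivity)]
  exact one_le_pow₀ (by linarith [(Nat.cast_nonneg i : (0 : ℝ) ≤ i)])

lemma qq_anti {i j : ℕ} (hij : i ≤ j) : qq h g j ≤ qq h g i := by
  unfold qq
  apply one_div_le_one_div_of_le (by positivity)
  apply pow_le_pow_left₀ (by positivity)
  have : (i : ℝ) ≤ j := by exact_mod_cast hij
  linarith

lemma PP_pos (j : ℕ) : 0 < PP h g j := mul_pos (pow_pos bb_pos _) (qq_pos _)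

lemma PP_le_one (hh : 2 ≤ h) (hg : 2 ≤ g) (j : ℕ) : PP h g j ≤ 1 :=
  mul_le_one₀ (pow_le_one₀ bb_pos.le (bb_le_one hh hg)) (qq_pos _).le (qq_le_one _)

lemma EE_pos (k : ℕ) : 0 < EE h g k := mul_pos (by positivity) (PP_pos k)

lemma pr_nonneg (k₀ : ℕ) (y : ℤ) : 0 ≤ pr h g k₀ y := by
  unfold pr
  split_ifs
  · exact (PP_pos _).le
  · exact le_refl _

lemma pr_le_one (hh : 2 ≤ h) (hg : 2 ≤ g) (k₀ : ℕ) (y : ℤ) : pr h g k₀ y ≤ 1 := by
  unfold pr
  split_ifs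
  · exact PP_le_one hh hg _
  · norm_num

lemma log_bounds {y : ℤ} (hy : 1 ≤ y) :
    2 ^ (Nat.log 2 y.toNat) ≤ y ∧ y < 2 ^ (Nat.log 2 y.toNat + 1) := by
  have h1 : 2 ^ (Nat.log 2 y.toNat) ≤ y.toNat := Nat.pow_log_le_self 2 (by omega)
  have h2 : y.toNat < 2 ^ (Nat.log 2 y.toNat + 1) := Nat.lt_pow_succ_log_self (by norm_num) _
  have h3 : (y.toNat : ℤ) = y := Int.toNat_of_nonneg (by omega)
  constructor
  · rw [← h3]
    exact_mod_cast h1
  · have : (y.toNat : ℤ) < ((2 ^ (Nat.log 2 y.toNat + 1) : ℕ) : ℤ) := by exact_mod_cast h2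
    rw [h3] at this
    push_cast at this
    exact this

lemma pr_bound (hh : 2 ≤ h) (hg : 2 ≤ g) (k₀ : ℕ) (y : ℤ) (i : ℕ) (hi : 2 ^ i ≤ y) :
    pr h g k₀ y ≤ (y : ℝ) ^ (-beta h g) * qq h g i := by
  have hy1 : 1 ≤ y := le_trans (one_le_pow₀ (by norm_num)) hi
  have hyR : (0 : ℝ) < y := by exact_mod_cast (by omega : 0 < y)
  unfold pr
  split_ifs
  · obtain ⟨h1, h2⟩ := log_bounds hy1
    set j := Nat.log 2 y.toNat
    have hij : i ≤ j := by
      have : (2 : ℤ) ^ i < 2 ^ (j + 1) := lt_of_le_of_lt hi h2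
      have := (pow_lt_pow_iff_right₀ (by norm_num : (1 : ℤ) < 2)).1 this
      omega
    unfold PP
    apply mul_le_mul _ (qq_anti hij) (qq_pos _).le (Real.rpow_nonneg hyR.le _)
    have e1 : bb h g ^ (j + 1) = ((2 : ℝ) ^ (j + 1)) ^ (-beta h g) := by
      unfold bb
      rw [← Real.rpow_natCast, ← Real.rpow_mul (by norm_num), ← Real.rpow_natCast (2 : ℝ) (j + 1),
        ← Real.rpow_mul (by norm_num)]
      ring_nf
    rw [e1]
    apply Real.rpow_le_rpow_of_nonpos hyR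
    · have : (y : ℝ) < ((2 ^ (j + 1) : ℤ) : ℝ) := by exact_mod_cast h2
      push_cast at this
      exact this.le
    · linarith [beta_pos hh hg]
  · exact mul_nonneg (Real.rpow_nonneg hyR.le _) (qq_pos _).le

lemma sum_B (k₀ k : ℕ) (hk : k₀ ≤ k) : EE h g k = ∑ a ∈ B k, pr h g k₀ a := by
  have h1 : ∀ a ∈ B k, pr h g k₀ a = PP h g k := by
    intro a ha
    simp only [B, Finset.mem_Ico] at ha
    have hk' : (2 : ℤ) ^ k₀ ≤ 2 ^ k := pow_le_pow_right₀ (by norm_num) hk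
    unfold pr
    rw [if_pos (hk'.trans ha.1)]
    congr 1
    have ha1 : 1 ≤ a := le_trans (one_le_pow₀ (by norm_num)) ha.1
    obtain ⟨h1, h2⟩ := log_bounds ha1
    have h3 : (2 : ℤ) ^ k < 2 ^ (Nat.log 2 a.toNat + 1) := lt_of_le_of_lt ha.1 h2
    have h4 : (2 : ℤ) ^ (Nat.log 2 a.toNat) < 2 ^ (k + 1) := lt_of_le_of_lt h1 ha.2
    have h5 := (pow_lt_pow_iff_right₀ (by norm_num : (1 : ℤ) < 2)).1 h3
    have h6 := (pow_lt_pow_iff_right₀ (by norm_num : (1 : ℤ) < 2)).1 h4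
    omega
  rw [Finset.sum_congr rfl h1, Finset.sum_const, card_B, nsmul_eq_mul]
  unfold EE
  push_cast
  ring

/-- `2 b = 2 ^ (1 - β) > 1` -/
lemma two_bb (hh : 2 ≤ h) (hg : 2 ≤ g) : 1 < 2 * bb h g := by
  have e : 2 * bb h g = (2 : ℝ) ^ (1 - beta h g) := by
    unfold bb
    rw [sub_eq_add_neg, Real.rpow_add (by norm_num), Real.rpow_one]
  rw [e]
  exact Real.one_lt_rpow (by norm_num) (by linarith [beta_lt_one hh hg])

lemma pow_two_bb (j : ℕ) : ((2 : ℝ) ^ j) ^ (1 - beta h g) = (2 * bb h g) ^ j := by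
  have e : 2 * bb h g = (2 : ℝ) ^ (1 - beta h g) := by
    unfold bb
    rw [sub_eq_add_neg, Real.rpow_add (by norm_num), Real.rpow_one]
  rw [e, ← Real.rpow_natCast, ← Real.rpow_natCast, ← Real.rpow_mul (by norm_num),
    ← Real.rpow_mul (by norm_num), mul_comm]

/-- the bound for the terms -/
lemma term_bound (hh : 2 ≤ h) (hg : 2 ≤ g) (k₀ j : ℕ) :
    4 / EE h g (j + 1) * ∑ Y ∈ Cf h g (j + 1), ∏ y ∈ Y, pr h g k₀ y + 4 / EE h g (j + 1) ≤
      (8 * T h g * 2 ^ (h * g)) * (1 / ((j : ℝ) + 1) ^ 2) +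
        8 * (((j + 2 : ℕ) : ℝ) ^ (h * g + 2) * (1 / (2 * bb h g)) ^ (j + 2)) := by
  have hs := sum_pr hh hg (pr h g k₀) (qq h g) (fun i => (qq_pos i).le) qq_le_one (pr_nonneg k₀)
    (pr_bound hh hg k₀) j
  have hE : EE h g (j + 1) = (2 * bb h g) ^ (j + 2) / 2 * qq h g (j + 1) := by
    unfold EE PP
    rw [mul_pow]
    ring
  have hE0 := EE_pos (h := h) (g := g) (j + 1)
  have hb := bb_pos (h := h) (g := g)
  have hq := qq_pos (h := h) (g := g) (j + 1)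
  rw [pow_two_bb] at hs
  refine add_le_add ?_ ?_
  · calc 4 / EE h g (j + 1) * ∑ Y ∈ Cf h g (j + 1), ∏ y ∈ Y, pr h g k₀ y
        ≤ 4 / EE h g (j + 1) * (qq h g (j + 1) * qq h g j * (2 * bb h g) ^ (j + 2) *
          (T h g * ((j : ℝ) + 2) ^ (h * g))) := mul_le_mul_of_nonneg_left hs (by positivity)
      _ = 8 * T h g * (qq h g j * ((j : ℝ) + 2) ^ (h * g)) := by
          rw [hE]
          field_simp
          ring
      _ ≤ 8 * T h g * (2 ^ (h * g) * (1 / ((j : ℝ) + 1) ^ 2)) := by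
          apply mul_le_mul_of_nonneg_left _ (mul_nonneg (by norm_num) (T_nonneg h g))
          unfold qq
          have h1 : ((j : ℝ) + 2) ^ (h * g) ≤ (2 * ((j : ℝ) + 1)) ^ (h * g) := by
            apply pow_le_pow_left₀ (by positivity)
            linarith [(Nat.cast_nonneg j : (0 : ℝ) ≤ j)]
          calc 1 / ((j : ℝ) + 1) ^ (h * g + 2) * ((j : ℝ) + 2) ^ (h * g)
              ≤ 1 / ((j : ℝ) + 1) ^ (h * g + 2) * (2 * ((j : ℝ) + 1)) ^ (h * g) :=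
                mul_le_mul_of_nonneg_left h1 (by positivity)
            _ = 2 ^ (h * g) * (1 / ((j : ℝ) + 1) ^ 2) := by
                rw [mul_pow, pow_add]
                field_simp
      _ = _ := by ring
  · rw [hE]
    unfold qq
    have e1 : ((j + 2 : ℕ) : ℝ) = ((j + 1 : ℕ) : ℝ) + 1 := by push_cast; ring
    rw [e1, one_div_pow]
    apply le_of_eq
    field_simp
    norm_num

lemma summable_terms (hh : 2 ≤ h) (hg : 2 ≤ g) :
    Summable (fun j : ℕ => (8 * T h g * 2 ^ (h * g)) * (1 / ((j : ℝ) + 1) ^ 2) +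
        8 * (((j + 2 : ℕ) : ℝ) ^ (h * g + 2) * (1 / (2 * bb h g)) ^ (j + 2))) := by
  apply Summable.add
  · apply Summable.mul_left
    have h1 : Summable (fun n : ℕ => 1 / (n : ℝ) ^ 2) :=
      Real.summable_one_div_nat_pow.2 (by norm_num)
    have h2 := (summable_nat_add_iff 1).2 h1
    simpa using h2
  · apply Summable.mul_left
    have h2 := two_bb hh hg
    have h3 : ‖(1 / (2 * bb h g) : ℝ)‖ < 1 := by
      rw [Real.norm_of_nonneg (by positivity), div_lt_one (by linarith)]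
      exact h2
    have h4 := summable_pow_mul_geometric_of_norm_lt_one (h * g + 2) h3
    exact (summable_nat_add_iff 2).2 h4

/-- the finite selections -/
lemma finite_selection (hh : 2 ≤ h) (hg : 2 ≤ g) : ∃ k₀ : ℕ, ∀ K : ℕ, ∃ R : Finset ℤ,
    (∀ y ∈ R, 2 ^ k₀ ≤ y) ∧ ∀ k, k₀ ≤ k → k ≤ K →
      (((Cf h g k).filter (· ⊆ R)).card : ℝ) ≤ EE h g k / 4 ∧
        EE h g k / 2 ≤ ((B k ∩ R).card : ℝ) := by
  obtain ⟨s, hs⟩ := summable_iff_vanishing_norm.1 (summable_terms hh hg) 1 one_pos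
  obtain ⟨n₀, hn₀⟩ : ∃ n₀ : ℕ, ∀ n ∈ s, n < n₀ := ⟨s.sup id + 1, fun n hn =>
    Nat.lt_succ_of_le (Finset.le_sup (f := id) hn)⟩
  refine ⟨n₀ + 1, fun K => ?_⟩
  have hsum : ∑ k ∈ Icc (n₀ + 1) K, (4 / EE h g k * ∑ Y ∈ Cf h g k, ∏ y ∈ Y, pr h g (n₀ + 1) y +
      4 / EE h g k) < 1 := by
    have h1 : ∀ k ∈ Icc (n₀ + 1) K, (4 / EE h g k * ∑ Y ∈ Cf h g k, ∏ y ∈ Y, pr h g (n₀ + 1) y +
        4 / EE h g k) ≤ (fun j : ℕ => (8 * T h g * 2 ^ (h * g)) * (1 / ((j : ℝ) + 1) ^ 2) +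
        8 * (((j + 2 : ℕ) : ℝ) ^ (h * g + 2) * (1 / (2 * bb h g)) ^ (j + 2))) (k - 1) := by
      intro k hk
      obtain ⟨j, rfl⟩ : ∃ j, k = j + 1 := ⟨k - 1, by have := (Finset.mem_Icc.1 hk).1; omega⟩
      simpa using term_bound hh hg (n₀ + 1) j
    refine lt_of_le_of_lt (Finset.sum_le_sum h1) ?_
    set F : ℕ → ℝ := fun j : ℕ => (8 * T h g * 2 ^ (h * g)) * (1 / ((j : ℝ) + 1) ^ 2) +
        8 * (((j + 2 : ℕ) : ℝ) ^ (h * g + 2) * (1 / (2 * bb h g)) ^ (j + 2)) with hF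
    have hinj : Set.InjOn (fun k : ℕ => k - 1) (Icc (n₀ + 1) K : Finset ℕ) := by
      intro a ha b hb hab
      have h2 := (Finset.mem_Icc.1 (Finset.mem_coe.1 ha)).1
      have h3 := (Finset.mem_Icc.1 (Finset.mem_coe.1 hb)).1
      simp only at hab
      omega
    have hsi : ∑ k ∈ Icc (n₀ + 1) K, F (k - 1) = ∑ j ∈ (Icc (n₀ + 1) K).image (fun k : ℕ => k - 1), F j :=
      (Finset.sum_image hinj).symm
    rw [hsi]
    have h4 := hs ((Icc (n₀ + 1) K).image (fun k : ℕ => k - 1)) (by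
      rw [Finset.disjoint_left]
      intro a ha ha'
      obtain ⟨k, hk, rfl⟩ := Finset.mem_image.1 ha
      have h5 := (Finset.mem_Icc.1 hk).1
      have := hn₀ _ ha'
      omega)
    exact lt_of_le_of_lt (le_abs_self _) h4
  obtain ⟨R, hR, hR'⟩ := exists_set (Ω := Ico ((2 : ℤ) ^ (n₀ + 1)) (2 ^ (K + 1)))
    (p := pr h g (n₀ + 1)) (pr_nonneg _) (pr_le_one hh hg _) (Icc (n₀ + 1) K) B (by
      intro k hk y hy
      obtain ⟨h1, h2⟩ := Finset.mem_Icc.1 hk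
      simp only [B, Finset.mem_Ico] at hy ⊢
      exact ⟨(pow_le_pow_right₀ (by norm_num) h1).trans hy.1,
        lt_of_lt_of_le hy.2 (pow_le_pow_right₀ (by norm_num) (by omega))⟩)
    (Cf h g) (EE h g) (fun k hk => sum_B (n₀ + 1) k (Finset.mem_Icc.1 hk).1)
    (fun k _ => EE_pos k) hsum
  refine ⟨R, fun y hy => (Finset.mem_Ico.1 (hR hy)).1, fun k hk1 hk2 => hR' k (Finset.mem_Icc.2 ⟨hk1, hk2⟩)⟩

open Classical in
/-- the configurations inside `R` -/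
noncomputable def selC (h g k : ℕ) (R : Set ℤ) : Finset (Finset ℤ) :=
  (Cf h g k).filter (fun Y : Finset ℤ => (Y : Set ℤ) ⊆ R)

open Classical in
/-- the part of the block `B k` inside `R` -/
noncomputable def selB (k : ℕ) (R : Set ℤ) : Finset ℤ := (B k).filter (· ∈ R)

open Classical in
lemma mem_selC {k : ℕ} {R : Set ℤ} {Y : Finset ℤ} :
    Y ∈ selC h g k R ↔ Y ∈ Cf h g k ∧ (Y : Set ℤ) ⊆ R := by
  unfold selC; rw [Finset.mem_filter]

open Classical in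
lemma mem_selB {k : ℕ} {R : Set ℤ} {y : ℤ} : y ∈ selB k R ↔ y ∈ B k ∧ y ∈ R := by
  unfold selB; rw [Finset.mem_filter]

/-- the infinite selection -/
lemma infinite_selection (hh : 2 ≤ h) (hg : 2 ≤ g) : ∃ (k₀ : ℕ) (R : Set ℤ),
    (∀ y ∈ R, 2 ^ k₀ ≤ y) ∧ ∀ k, k₀ ≤ k →
      ((selC h g k R).card : ℝ) ≤ EE h g k / 4 ∧
        EE h g k / 2 ≤ ((selB k R).card : ℝ) := by
  obtain ⟨k₀, hk₀⟩ := finite_selection hh hg
  choose R hR1 hR2 using hk₀
  let U : Ultrafilter ℕ := hyperfilter ℕ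
  let S : Set ℤ := {i | ∀ᶠ K in (U : Filter ℕ), i ∈ R K}
  have hagree : ∀ i : ℤ, ∀ᶠ K in (U : Filter ℕ), (i ∈ R K ↔ i ∈ S) := by
    intro i
    by_cases hi : i ∈ S
    · have h1 : ∀ᶠ K in (U : Filter ℕ), i ∈ R K := hi
      filter_upwards [h1] with K hK
      exact ⟨fun _ => hi, fun _ => hK⟩
    · have h1 : ¬ ∀ᶠ K in (U : Filter ℕ), i ∈ R K := hi
      have h2 : ∀ᶠ K in (U : Filter ℕ), ¬ i ∈ R K := Ultrafilter.eventually_not.2 h1
      filter_upwards [h2] with K hK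
      exact ⟨fun h' => absurd h' hK, fun h' => absurd h' hi⟩
  refine ⟨k₀, S, ?_, ?_⟩
  · intro y hy
    have h1 : ∀ᶠ K in (U : Filter ℕ), y ∈ R K := hy
    obtain ⟨K, hK⟩ := h1.exists
    exact hR1 K y hK
  · intro k hk
    have h1 : ∀ᶠ K in (U : Filter ℕ), ∀ i ∈ Ico (1 : ℤ) (2 ^ (k + 1)), (i ∈ R K ↔ i ∈ S) := by
      rw [Filter.eventually_all_finset]
      exact fun i _ => hagree i
    have h2 : ∀ᶠ K in (U : Filter ℕ), k ≤ K :=
      (Nat.hyperfilter_le_atTop) (eventually_ge_atTop k)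
    obtain ⟨K, hK1, hK2⟩ := (h1.and h2).exists
    have hR := hR2 K k hk hK2
    have e1 : selC h g k S = (Cf h g k).filter (· ⊆ R K) := by
      ext Y
      rw [mem_selC, Finset.mem_filter]
      constructor
      · rintro ⟨hY, h3⟩
        have hY1 := (mem_Cf.1 hY).1
        exact ⟨hY, fun y hy => (hK1 y (Finset.mem_Ico.2 (hY1 y hy))).2 (h3 (Finset.mem_coe.2 hy))⟩
      · rintro ⟨hY, h3⟩
        have hY1 := (mem_Cf.1 hY).1
        exact ⟨hY, fun y hy => (hK1 y (Finset.mem_Ico.2 (hY1 y hy))).1 (h3 hy)⟩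
    have e2 : selB k S = B k ∩ R K := by
      ext y
      rw [mem_selB, Finset.mem_inter]
      constructor
      · rintro ⟨h3, h4⟩
        refine ⟨h3, ?_⟩
        simp only [B, Finset.mem_Ico] at h3
        exact (hK1 y (Finset.mem_Ico.2 ⟨le_trans (one_le_pow₀ (by norm_num)) h3.1, h3.2⟩)).2 h4
      · rintro ⟨h3, h4⟩
        refine ⟨h3, ?_⟩
        simp only [B, Finset.mem_Ico] at h3
        exact (hK1 y (Finset.mem_Ico.2 ⟨le_trans (one_le_pow₀ (by norm_num)) h3.1, h3.2⟩)).1 h4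
    rw [e1, e2]
    exact hR

/-- the maximum of a finite set (`0` for the empty set) -/
noncomputable def mx (Y : Finset ℤ) : ℤ := if hY : Y.Nonempty then Y.max' hY else 0

/-- the sequence -/
theorem exists_seq (hh : 2 ≤ h) (hg : 2 ≤ g) : ∃ (k₀ : ℕ) (A : Set ℤ),
    (∀ y ∈ A, 1 ≤ y) ∧ (∀ Y : Finset ℤ, IsConf h g Y → ¬ (Y : Set ℤ) ⊆ A) ∧
    ∀ k, k₀ ≤ k → EE h g k / 4 ≤ ((selB k A).card : ℝ) := by
  obtain ⟨k₀, R, hR1, hR2⟩ := infinite_selection hh hg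
  let A : Set ℤ := {a | a ∈ R ∧ ¬ ∃ Y : Finset ℤ, IsConf h g Y ∧ (Y : Set ℤ) ⊆ R ∧ a ∈ Y ∧ ∀ y ∈ Y, y ≤ a}
  have hpos : ∀ y ∈ R, 1 ≤ y := fun y hy => le_trans (one_le_pow₀ (by norm_num)) (hR1 y hy)
  refine ⟨k₀, A, fun y hy => hpos y hy.1, ?_, ?_⟩
  · intro Y hY hYA
    have hne : Y.Nonempty := by
      obtain ⟨x, k, hx, hk, rfl⟩ := hY
      exact ⟨sm x k (⟨0, by omega⟩, ⟨0, by omega⟩), Finset.mem_image_of_mem _ (Finset.mem_univ _)⟩
    have hmax := hYA (Finset.mem_coe.2 (Y.max'_mem hne))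
    exact hmax.2 ⟨Y, hY, fun y hy => (hYA hy).1, Y.max'_mem hne, fun y hy => Y.le_max' y hy⟩
  · intro k hk
    obtain ⟨h1, h2⟩ := hR2 k hk
    -- the removed elements
    have h3 : selB k R ⊆ selB k A ∪ (selC h g k R).image mx := by
      intro a ha
      obtain ⟨haB, haR⟩ := mem_selB.1 ha
      rw [Finset.mem_union]
      by_cases haA : a ∈ A
      · exact Or.inl (mem_selB.2 ⟨haB, haA⟩)
      · right
        have h4 : ∃ Y : Finset ℤ, IsConf h g Y ∧ (Y : Set ℤ) ⊆ R ∧ a ∈ Y ∧ ∀ y ∈ Y, y ≤ a := by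
          by_contra hcon
          exact haA ⟨haR, hcon⟩
        obtain ⟨Y, hY1, hY2, hY3, hY4⟩ := h4
        simp only [B, Finset.mem_Ico] at haB
        refine Finset.mem_image.2 ⟨Y, mem_selC.2 ⟨mem_Cf.2 ⟨fun y hy =>
          ⟨hpos y (hY2 (Finset.mem_coe.2 hy)), lt_of_le_of_lt (hY4 y hy) haB.2⟩, hY1, a, hY3, haB.1⟩, hY2⟩, ?_⟩
        unfold mx
        rw [dif_pos ⟨a, hY3⟩]
        exact le_antisymm (hY4 _ (Y.max'_mem _)) (Y.le_max' a hY3)
    have h5 := (Finset.card_le_card h3).trans (Finset.card_union_le _ _)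
    have h6 := Finset.card_image_le (s := selC h g k R) (f := mx)
    have h7 : ((selB k R).card : ℝ) ≤ ((selB k A).card : ℝ) + ((selC h g k R).card : ℝ) := by
      exact_mod_cast h5.trans (Nat.add_le_add_left h6 _)
    linarith

end Pool.Agent.Q153.CHG
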